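import Mathlib

set_option autoImplicit false

/-!
# The Bates-Peschke form: definitions

The coordinates of `ℝ⁴` are `(x₁, y₁, x₂, y₂) = (p 0, p 1, p 2, p 3)`. A one-form is a function
`R4 → R4 → ℝ` (point, vector), a two-form is a function `R4 → R4 → R4 → ℝ`.
-/

namespace Pool.Agent.Q39.BP

open Real

/-- `ℝ⁴` with the coordinates `(x₁, y₁, x₂, y₂) = (p 0, p 1, p 2, p 3)`. -/
abbrev R4 : Type := Fin 4 → ℝ

/-- `r₁ = √(x₁² + y₁²)`. -/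
noncomputable def r1 (p : R4) : ℝ := √(p 0 ^ 2 + p 1 ^ 2)

/-- `r₂ = √(x₂² + y₂²)`. -/
noncomputable def r2 (p : R4) : ℝ := √(p 2 ^ 2 + p 3 ^ 2)

/-- `a(t) = 2 cos(t²) - 2 t² sin(t²)`. -/
noncomputable def a (t : ℝ) : ℝ := 2 * cos (t ^ 2) - 2 * t ^ 2 * sin (t ^ 2)

/-- `f = r₁² + r₂² - π`. -/
noncomputable def f (p : R4) : ℝ := r1 p ^ 2 + r2 p ^ 2 - π

/-- `α₁ = x₁ dy₁ - y₁ dx₁`. -/
def alpha1 (p v : R4) : ℝ := p 0 * v 1 - p 1 * v 0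

/-- `α₂ = x₂ dy₂ - y₂ dx₂`. -/
def alpha2 (p v : R4) : ℝ := p 2 * v 3 - p 3 * v 2

/-- `σ = cos(r₁²) α₁ + cos(r₂²) α₂`. -/
noncomputable def sigma (p v : R4) : ℝ :=
  cos (r1 p ^ 2) * alpha1 p v + cos (r2 p ^ 2) * alpha2 p v

/-- `μ = a(r₂) α₁ + a(r₁) α₂`. -/
noncomputable def mu (p v : R4) : ℝ := a (r2 p) * alpha1 p v + a (r1 p) * alpha2 p v

/-- `λ = σ + f μ`. -/
noncomputable def lam (p v : R4) : ℝ := sigma p v + f p * mu p v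

/-- The exterior derivative of a one-form: `dη(v, w) = ∂_v (η(w)) - ∂_w (η(v))` for constant vector
fields `v`, `w`. -/
noncomputable def extDer (η : R4 → R4 → ℝ) (p v w : R4) : ℝ :=
  fderiv ℝ (fun q => η q w) p v - fderiv ℝ (fun q => η q v) p w

/-- `ω = -dλ`. -/
noncomputable def omega (p v w : R4) : ℝ := -extDer lam p v w

/-- `ω₀ = dx₁ ∧ dy₁ + dx₂ ∧ dy₂`. -/
def omega0 (v w : R4) : ℝ := (v 0 * w 1 - v 1 * w 0) + (v 2 * w 3 - v 3 * w 2)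

/-- `ω` is nondegenerate at `p`. -/
def NondegenerateAt (p : R4) : Prop := ∀ v : R4, (∀ w : R4, omega p v w = 0) → v = 0

/-- The shell `U_ε = {|f| < ε}`. -/
def Shell (ε : ℝ) : Set R4 := {p | |f p| < ε}

/-- The sphere `S³ = {r₁² + r₂² = π}`. -/
def S3 : Set R4 := {p | r1 p ^ 2 + r2 p ^ 2 = π}

/-- The torus `L = {r₁ = r₂ = √(π/2)}`. -/
def L : Set R4 := {p | r1 p = √(π / 2) ∧ r2 p = √(π / 2)}

/-- `V`: the shell `U_ε` minus the radial segment through `x`. -/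
def V (ε : ℝ) (x : R4) : Set R4 := {p | p ∈ Shell ε ∧ ¬ ∃ t : ℝ, 0 < t ∧ p = t • x}

end Pool.Agent.Q39.BP
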