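import Mathlib

set_option autoImplicit false

/-!
# Estimates for the coefficients
-/

namespace Pool.Agent.Q39.BP

open Real

theorem est (s1 s2 : ℝ) (h1 : 0 ≤ s1) (h2 : s1 ≤ 1 / 2) (hf : |s1 + s2 - π| ≤ 1 / 5) :
    1 / 10 ≤ cos s1 + (s1 + s2 - π) * (2 * cos s2 - 2 * s2 * sin s2) := by
  obtain ⟨f, hfd⟩ : ∃ f, f = s1 + s2 - π := ⟨_, rfl⟩
  rw [← hfd] at hf ⊢
  obtain ⟨hf1, hf2⟩ := abs_le.1 hf
  obtain ⟨d, hd⟩ : ∃ d, d = s1 - f := ⟨_, rfl⟩
  have hs2 : s2 = π - d := by rw [hd, hfd]; ring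
  rw [hs2, Real.cos_pi_sub, Real.sin_pi_sub]
  have hc1 := Real.one_sub_sq_div_two_le_cos (x := s1)
  have hpi1 := Real.pi_gt_three
  have hpi2 := Real.pi_lt_d2
  have hg : cos s1 + f * (2 * -cos d - 2 * (π - d) * sin d) =
      cos s1 - 2 * f * (cos d + (π - d) * sin d) := by ring
  rw [hg]
  have hq : s1 ^ 2 ≤ 1 / 4 := by nlinarith
  rcases le_or_gt f 0 with hf0 | hf0
  · have hd0 : 0 ≤ d := by linarith
    have hd1 : d ≤ 7 / 10 := by linarith
    have c0 : 0 ≤ cos d := Real.cos_nonneg_of_mem_Icc ⟨by linarith, by linarith⟩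
    have c1 : 0 ≤ sin d := Real.sin_nonneg_of_nonneg_of_le_pi hd0 (by linarith)
    have c2 : 0 ≤ (π - d) * sin d := mul_nonneg (by linarith) c1
    nlinarith
  · have c0 := Real.cos_le_one d
    rcases le_or_gt d 0 with hd0 | hd0
    · have c1 : sin d ≤ 0 := Real.sin_nonpos_of_nonpos_of_neg_pi_le hd0 (by linarith)
      have c2 : (π - d) * sin d ≤ 0 := mul_nonpos_of_nonneg_of_nonpos (by linarith) c1
      have c3 : 2 * f * (cos d + (π - d) * sin d) ≤ 2 * f * 1 :=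
        mul_le_mul_of_nonneg_left (by linarith) (by linarith)
      linarith
    · have c1 : sin d ≤ d := Real.sin_le hd0.le
      have c4 : (π - d) * sin d ≤ (3.15 - d) * d := by
        have h3 : (π - d) * sin d ≤ (π - d) * d := mul_le_mul_of_nonneg_left c1 (by linarith)
        have h4 : (π - d) * d ≤ (3.15 - d) * d := mul_le_mul_of_nonneg_right (by linarith) hd0.le
        linarith
      have c5 : (3.15 - d) * d ≤ (2.65 + f) * (1 / 2 - f) := by
        nlinarith [mul_nonneg (by linarith : 0 ≤ 1 / 2 - f - d)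
          (by linarith : 0 ≤ 3.15 - (1 / 2 - f) - d)]
      have c3 : 2 * f * (cos d + (π - d) * sin d) ≤ 2 * f * (1 + (2.65 + f) * (1 / 2 - f)) :=
        mul_le_mul_of_nonneg_left (by linarith) (by linarith)
      have c6 : 2 * f * (1 + (2.65 + f) * (1 / 2 - f)) ≤ 0.745 := by
        nlinarith [mul_nonneg hf0.le (by linarith : 0 ≤ 1 / 5 - f),
          mul_nonneg (mul_nonneg hf0.le hf0.le) (by linarith : 0 ≤ 1 / 5 - f)]
      linarith

/-- The profile `a`, as a function of the square of the radius. -/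
noncomputable def aa (s : ℝ) : ℝ := 2 * cos s - 2 * s * sin s

/-- Its derivative. -/
noncomputable def aa' (s : ℝ) : ℝ := -4 * sin s - 2 * s * cos s

noncomputable def k11 (s t : ℝ) : ℝ :=
  cos s + (s + t - π) * aa t + s * (-sin s + aa t)

noncomputable def k12 (s t : ℝ) : ℝ := s * (aa t + (s + t - π) * aa' t)

noncomputable def k21 (s t : ℝ) : ℝ := t * (aa s + (s + t - π) * aa' s)

noncomputable def k22 (s t : ℝ) : ℝ :=
  cos t + (s + t - π) * aa s + t * (-sin t + aa s)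

/-- The quarter of the Pfaffian of the form. -/
noncomputable def JJ (s t : ℝ) : ℝ := k11 s t * k22 s t - k12 s t * k21 s t

theorem JJ_zero {s t : ℝ} (h : s + t = π) : JJ s t =
    2 * t * (cos s - s * sin s) ^ 2 - (cos s - s * sin s) * (cos s + t * sin s) +
      2 * s * (cos s + t * sin s) ^ 2 := by
  have ht : t = π - s := by linarith
  have h1 : cos t = -cos s := by rw [ht, Real.cos_pi_sub]
  have h2 : sin t = sin s := by rw [ht, Real.sin_pi_sub]
  unfold JJ k11 k12 k21 k22 aa aa'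
  rw [h1, h2, show s + t - π = 0 by linarith]
  ring

theorem JJ_symm (s t : ℝ) : JJ s t = JJ t s := by
  unfold JJ k11 k12 k21 k22
  rw [add_comm t s]
  ring

theorem JJ_pos_small {s t : ℝ} (h : s + t = π) (hs : 0 ≤ s) (hs1 : s ≤ 1 / 10) : 0 < JJ s t := by
  rw [JJ_zero h]
  have hc1 := Real.one_sub_sq_div_two_le_cos (x := s)
  have hc2 := Real.cos_le_one s
  have hpi1 := Real.pi_gt_d2
  have hpi2 := Real.pi_lt_d2
  have h1 : 0 ≤ sin s := Real.sin_nonneg_of_nonneg_of_le_pi hs (by linarith)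
  have h2 : sin s ≤ s := Real.sin_le hs
  have hX : 0.9 ≤ cos s - s * sin s := by nlinarith
  have hX1 : cos s - s * sin s ≤ 1 := by nlinarith [mul_nonneg hs h1]
  have hY : cos s + t * sin s ≤ 1.4 := by nlinarith
  have hY0 : 0 ≤ cos s + t * sin s := by
    have := mul_nonneg (by linarith : 0 ≤ t) h1
    nlinarith
  set X := cos s - s * sin s
  set Y := cos s + t * sin s
  have h3 : 0 ≤ 2 * s * Y ^ 2 := by positivity
  have h4 : X * Y ≤ X * 1.4 := mul_le_mul_of_nonneg_left hY (by linarith)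
  have h5 : 6 * X * X ≤ 2 * t * X ^ 2 := by nlinarith
  nlinarith

theorem JJ_pos {s t : ℝ} (h : s + t = π) (hs : 0 ≤ s) (ht : 0 ≤ t) : 0 < JJ s t := by
  rcases le_or_gt s (1 / 10) with h1 | h1
  · exact JJ_pos_small h hs h1
  rcases le_or_gt t (1 / 10) with h2 | h2
  · rw [JJ_symm]
    exact JJ_pos_small (by linarith) ht h2
  · rw [JJ_zero h]
    have hpi := Real.pi_gt_three
    have hst : 1 / 4 ≤ s * t := by
      rcases le_or_gt s (3 / 2) with h3 | h3
      · nlinarith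
      · nlinarith
    have hsq := sin_sq_add_cos_sq s
    have hXY : cos s - s * sin s ≠ 0 ∨ cos s + t * sin s ≠ 0 := by
      by_contra hn
      push Not at hn
      have h3 : π * sin s = 0 := by rw [← h]; linarith [hn.1, hn.2]
      have h4 : sin s = 0 := (mul_eq_zero.1 h3).resolve_left Real.pi_ne_zero
      have h5 : cos s = 0 := by simpa [h4] using hn.1
      rw [h4, h5] at hsq
      norm_num at hsq
    generalize cos s - s * sin s = X at *
    generalize cos s + t * sin s = Y at *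
    have e1 : 0 < 8 * t * (2 * t * X ^ 2 - X * Y + 2 * s * Y ^ 2) := by
      have e2 : 8 * t * (2 * t * X ^ 2 - X * Y + 2 * s * Y ^ 2) =
          (4 * t * X - Y) ^ 2 + (16 * (s * t) - 1) * Y ^ 2 := by ring
      rw [e2]
      rcases eq_or_ne Y 0 with hY | hY
      · rw [hY] at hXY ⊢
        have hX : X ≠ 0 := hXY.resolve_right (fun h => h rfl)
        have : 0 < (4 * t * X - 0) ^ 2 := by
          have : 4 * t * X - 0 ≠ 0 := by
            rw [sub_zero]
            positivity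
          positivity
        linarith
      · have h3 : 0 < Y ^ 2 := by positivity
        have h4 : 0 < (16 * (s * t) - 1) * Y ^ 2 := mul_pos (by linarith) h3
        have h5 := sq_nonneg (4 * t * X - Y)
        linarith
    exact (pos_iff_pos_of_mul_pos e1).1 (by linarith)

theorem k22_pos (g : ℝ) (h0 : 0 ≤ g) (h1 : g ≤ 1 / 5) : 0 < k22 (1 / 2) (π - 1 / 2 + g) := by
  unfold k22
  have e1 : π - 1 / 2 + g = π - (1 / 2 - g) := by ring
  rw [e1, Real.cos_pi_sub, Real.sin_pi_sub]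
  have hc := Real.one_sub_sq_div_two_le_cos (x := (1 / 2 : ℝ))
  have hs : sin (1 / 2 : ℝ) ≤ 1 / 2 := Real.sin_le (by norm_num)
  have hA : 1.2 ≤ aa (1 / 2) := by
    unfold aa
    linarith
  have h2 : sin (1 / 2 - g) ≤ 1 / 2 - g := Real.sin_le (by linarith)
  have h3 := Real.cos_le_one (1 / 2 - g)
  have hpi := Real.pi_gt_three
  have h4 : 0 ≤ (1 / 2 + (π - (1 / 2 - g)) - π) * aa (1 / 2) :=
    mul_nonneg (by linarith) (by linarith)
  have h5 : 2.5 * 0.7 ≤ (π - (1 / 2 - g)) * (-sin (1 / 2 - g) + aa (1 / 2)) :=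
    mul_le_mul (by linarith) (by linarith) (by norm_num) (by linarith)
  linarith

theorem JJ_neg : JJ (1 / 2) (π - 3 / 10) < 0 := by
  have c1 := abs_le.1 (Real.cos_bound (x := 1 / 2) (by rw [abs_of_nonneg] <;> norm_num))
  have s1 := abs_le.1 (Real.sin_bound (x := 1 / 2) (by rw [abs_of_nonneg] <;> norm_num))
  have c3 := abs_le.1 (Real.cos_bound (x := 3 / 10) (by rw [abs_of_nonneg] <;> norm_num))
  have s3 := abs_le.1 (Real.sin_bound (x := 3 / 10) (by rw [abs_of_nonneg] <;> norm_num))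
  rw [abs_of_nonneg (by norm_num : (0:ℝ) ≤ 1 / 2)] at c1 s1
  rw [abs_of_nonneg (by norm_num : (0:ℝ) ≤ 3 / 10)] at c3 s3
  norm_num at c1 s1 c3 s3
  unfold JJ k11 k12 k21 k22 aa aa'
  rw [Real.cos_pi_sub, Real.sin_pi_sub]
  have hpi1 := Real.pi_gt_d2
  have hpi2 := Real.pi_lt_d2
  generalize cos (1 / 2 : ℝ) = C at *
  generalize sin (1 / 2 : ℝ) = S at *
  generalize cos (3 / 10 : ℝ) = c at *
  generalize sin (3 / 10 : ℝ) = s at *
  obtain ⟨Q, hQ⟩ : ∃ Q, Q = π - 3 / 10 := ⟨_, rfl⟩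
  rw [← hQ, show (1 / 2 + Q - π : ℝ) = 1 / 5 by rw [hQ]; ring]
  have q1 : 2.84 ≤ Q := by rw [hQ]; linarith
  have q2 : Q ≤ 2.85 := by rw [hQ]; linarith
  have C1 : 0.8717 ≤ C := by linarith [c1.1]
  have C2 : C ≤ 0.8783 := by linarith [c1.2]
  have S1 : 0.4759 ≤ S := by linarith [s1.1]
  have S2 : S ≤ 0.4825 := by linarith [s1.2]
  have d1 : 0.9545 ≤ c := by linarith [c3.1]
  have d2 : c ≤ 0.9555 := by linarith [c3.2]
  have t1 : 0.295 ≤ s := by linarith [s3.1]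
  have t2 : s ≤ 0.296 := by linarith [s3.2]
  have m1 : 2.84 * 0.295 ≤ Q * s := mul_le_mul q1 t1 (by norm_num) (by linarith)
  have m2 : Q * s ≤ 2.85 * 0.296 := mul_le_mul q2 t2 (by linarith) (by norm_num)
  have m3 : 2.84 * 0.9545 ≤ Q * c := mul_le_mul q1 d1 (by norm_num) (by linarith)
  have m4 : Q * c ≤ 2.85 * 0.9555 := mul_le_mul q2 d2 (by linarith) (by norm_num)
  have A1 : 2 * -c - 2 * Q * s ≤ -3.58 := by linarith
  have A2 : -3.61 ≤ 2 * -c - 2 * Q * s := by linarith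
  have A3 : 4.23 ≤ -4 * s - 2 * Q * -c := by linarith
  have A4 : -4 * s - 2 * Q * -c ≤ 4.27 := by linarith
  have k1 : C + 1 / 5 * (2 * -c - 2 * Q * s) + 1 / 2 * (-S + (2 * -c - 2 * Q * s)) ≤ -1.86 := by
    linarith
  have k2 : -1.385 ≤ 1 / 2 * (2 * -c - 2 * Q * s + 1 / 5 * (-4 * s - 2 * Q * -c)) := by linarith
  have k2' : 1 / 2 * (2 * -c - 2 * Q * s + 1 / 5 * (-4 * s - 2 * Q * -c)) ≤ 0 := by linarith
  have k3 : Q * (2 * C - 2 * (1 / 2) * S + 1 / 5 * (-4 * S - 2 * (1 / 2) * C)) ≤ 2.85 * 0.73 :=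
    mul_le_mul q2 (by linarith) (by linarith) (by norm_num)
  have k4 : 2.84 * 0.96 ≤ Q * (-s + (2 * C - 2 * (1 / 2) * S)) :=
    mul_le_mul q1 (by linarith) (by norm_num) (by linarith)
  have k5 : 2 ≤ -c + 1 / 5 * (2 * C - 2 * (1 / 2) * S) + Q * (-s + (2 * C - 2 * (1 / 2) * S)) := by
    linarith
  have k6 : 1.86 * 2 ≤ -(C + 1 / 5 * (2 * -c - 2 * Q * s) + 1 / 2 * (-S + (2 * -c - 2 * Q * s))) *
      (-c + 1 / 5 * (2 * C - 2 * (1 / 2) * S) + Q * (-s + (2 * C - 2 * (1 / 2) * S))) :=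
    mul_le_mul (by linarith) k5 (by norm_num) (by linarith)
  have k7 : -(1 / 2 * (2 * -c - 2 * Q * s + 1 / 5 * (-4 * s - 2 * Q * -c))) *
      (Q * (2 * C - 2 * (1 / 2) * S + 1 / 5 * (-4 * S - 2 * (1 / 2) * C))) ≤
      1.385 * (2.85 * 0.73) :=
    mul_le_mul (by linarith) k3 (mul_nonneg (by linarith) (by linarith)) (by norm_num)
  linarith

theorem exists_zero : ∃ g : ℝ, 0 ≤ g ∧ g ≤ 1 / 5 ∧ JJ (1 / 2) (π - 1 / 2 + g) = 0 := by
  have hc : Continuous fun g : ℝ => JJ (1 / 2) (π - 1 / 2 + g) := by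
    unfold JJ k11 k12 k21 k22 aa aa'
    fun_prop
  have h0 : 0 < JJ (1 / 2) (π - 1 / 2 + 0) :=
    JJ_pos (by ring) (by norm_num) (by linarith [Real.pi_gt_three])
  have h1 : JJ (1 / 2) (π - 1 / 2 + 1 / 5) < 0 := by
    have := JJ_neg
    rwa [show π - 3 / 10 = π - 1 / 2 + 1 / 5 by ring] at this
  obtain ⟨g, hg, hg0⟩ := intermediate_value_Icc' (a := (0 : ℝ)) (b := 1 / 5) (by norm_num)
    hc.continuousOn ⟨h1.le, h0.le⟩
  exact ⟨g, hg.1, hg.2, hg0⟩

end Pool.Agent.Q39.BP
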