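import Pool.Agent.Q39.BP.Prof

set_option autoImplicit false

/-!
# The model map in polar coordinates
-/

namespace Pool.Agent.Q39.BP

open Real
open scoped ContDiff

noncomputable def be (t : ℝ) : ℝ := (pA' t * pw t - pA t) / (4 * pP' t)

noncomputable def ga (t : ℝ) : ℝ :=
  (pA t - pA t * pw' t + 3 * pA' t * (pw t - (t + 2))) / (32 * pP' t)

theorem be_smooth : ContDiff ℝ ∞ be := by
  have h1 := pA_smooth
  have h2 := pw_smooth
  have h3 := pA'_smooth
  have h4 := pP'_smooth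
  unfold be
  refine ContDiff.div (by fun_prop) (by fun_prop) fun t => ?_
  have := pP'_pos t
  positivity

theorem ga_smooth : ContDiff ℝ ∞ ga := by
  have h1 := pA_smooth
  have h2 := pw_smooth
  have h3 := pA'_smooth
  have h4 := pP'_smooth
  have h5 := pw'_smooth
  unfold ga
  refine ContDiff.div (by fun_prop) (by fun_prop) fun t => ?_
  have := pP'_pos t
  positivity

theorem be_high {t : ℝ} (ht : 1 ≤ t) : be t = 0 := by
  unfold be
  rw [(pA_high ht).1, (pA_high ht).2, (pw_high ht).1]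
  simp

theorem ga_high {t : ℝ} (ht : 1 ≤ t) : ga t = 0 := by
  unfold ga
  rw [(pA_high ht).1, (pA_high ht).2, (pw_high ht).1, (pw_high ht).2]
  simp

/-- The new angle. -/
noncomputable def th (t x : ℝ) : ℝ := x + be t * sin (2 * x) + ga t * sin (4 * x)

/-- The Jacobian. -/
noncomputable def hh (t x : ℝ) : ℝ :=
  pA' t * pw t * cos x ^ 2 + sin x ^ 2 * (pA t * (sin x ^ 2 + pw' t * cos x ^ 2) -
    3 * pA' t * (pw t - (t + 2)) * cos x ^ 2)

theorem hh_pos (t x : ℝ) : 0 < hh t x := by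
  unfold hh
  have h1 := pA_pos t
  have h2 := pA'_pos t
  have h3 := pw_pos t
  have h5 := key_ineq t
  have h6 := sin_sq_add_cos_sq x
  set c := cos x ^ 2 with hc
  set s := sin x ^ 2 with hs
  have hc0 : 0 ≤ c := sq_nonneg _
  have hs0 : 0 ≤ s := sq_nonneg _
  have e1 : 0 ≤ s * c * (pA t * pw' t - 3 * pA' t * (pw t - (t + 2))) :=
    mul_nonneg (mul_nonneg hs0 hc0) (by linarith)
  have e2 : 0 < pA' t * pw t * c + pA t * s ^ 2 := by
    rcases hs0.eq_or_lt with e | e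
    · have : c = 1 := by linarith
      rw [this, ← e]
      have := mul_pos h2 h3
      nlinarith
    · have a1 : 0 ≤ pA' t * pw t * c := mul_nonneg (mul_pos h2 h3).le hc0
      have a2 : 0 < pA t * s ^ 2 := by positivity
      linarith
  nlinarith

/-- Derivative of the new angle with respect to the angle. -/
noncomputable def thx (t x : ℝ) : ℝ := 1 + 2 * be t * cos (2 * x) + 4 * ga t * cos (4 * x)

theorem thx_eq (t x : ℝ) : pP' t * thx t x = hh t x := by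
  have hP := pP'_pos t
  have e1 : pP' t * be t = (pA' t * pw t - pA t) / 4 := by
    unfold be
    field_simp
  have e2 : pP' t * ga t = (pA t - pA t * pw' t + 3 * pA' t * (pw t - (t + 2))) / 32 := by
    unfold ga
    field_simp
  have e3 : pP' t = (pA' t * (3 * (t + 2) + pw t) + pA t * (3 + pw' t)) / 8 := rfl
  have c2 : cos (2 * x) = 2 * cos x ^ 2 - 1 := Real.cos_two_mul x
  have c4 : cos (4 * x) = 2 * (2 * cos x ^ 2 - 1) ^ 2 - 1 := by
    rw [← c2, ← Real.cos_two_mul]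
    ring_nf
  have s2 : sin x ^ 2 = 1 - cos x ^ 2 := by linarith [sin_sq_add_cos_sq x]
  have : pP' t * thx t x = pP' t + 2 * (pP' t * be t) * cos (2 * x) +
      4 * (pP' t * ga t) * cos (4 * x) := by
    unfold thx
    ring
  rw [this, e1, e2, e3, c2, c4]
  unfold hh
  rw [s2]
  ring

theorem thx_pos (t x : ℝ) : 0 < thx t x := by
  have h1 := hh_pos t x
  rw [← thx_eq] at h1
  exact (pos_iff_pos_of_mul_pos h1).1 (pP'_pos t)

theorem th_hd (t x : ℝ) : HasDerivAt (th t) (thx t x) x := by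
  have h2 : HasDerivAt (fun x : ℝ => sin (2 * x)) (cos (2 * x) * 2) x := by
    simpa using ((hasDerivAt_id x).const_mul (2 : ℝ)).sin
  have h4 : HasDerivAt (fun x : ℝ => sin (4 * x)) (cos (4 * x) * 4) x := by
    simpa using ((hasDerivAt_id x).const_mul (4 : ℝ)).sin
  have h := ((hasDerivAt_id x).add (h2.const_mul (be t))).add (h4.const_mul (ga t))
  refine h.congr_deriv ?_
  unfold thx
  ring

theorem th_strictMono (t : ℝ) : StrictMono (th t) :=
  strictMono_of_deriv_pos fun x => by rw [(th_hd t x).deriv]; exact thx_pos t x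

theorem th_cont (t : ℝ) : Continuous (th t) :=
  continuous_iff_continuousAt.2 fun x => (th_hd t x).continuousAt

theorem th_surj (t : ℝ) : Function.Surjective (th t) := by
  have hb : ∀ x, |be t * sin (2 * x) + ga t * sin (4 * x)| ≤ |be t| + |ga t| := by
    intro x
    refine (abs_add_le _ _).trans (add_le_add ?_ ?_)
    · rw [abs_mul]
      exact mul_le_of_le_one_right (abs_nonneg _) (abs_sin_le_one _)
    · rw [abs_mul]
      exact mul_le_of_le_one_right (abs_nonneg _) (abs_sin_le_one _)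
  refine (th_cont t).surjective ?_ ?_
  · refine Filter.tendsto_atTop_mono (f := fun x => x + -(|be t| + |ga t|)) (fun x => ?_)
      (Filter.tendsto_id.atTop_add tendsto_const_nhds)
    have := (abs_le.1 (hb x)).1
    unfold th
    linarith
  · refine Filter.tendsto_atBot_mono (f := fun x => x + (|be t| + |ga t|)) (fun x => ?_)
      (Filter.tendsto_id.atBot_add tendsto_const_nhds)
    have := (abs_le.1 (hb x)).2
    unfold th
    linarith

/-- The change of coordinates. -/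
noncomputable def Phi (z : ℝ × ℝ) : ℝ × ℝ := (pP z.1, th z.1 z.2)

theorem Phi_smooth : ContDiff ℝ ∞ Phi := by
  have h1 := pP_smooth
  have h2 := be_smooth
  have h3 := ga_smooth
  have h4 : ContDiff ℝ ∞ Real.sin := Real.contDiff_sin
  unfold Phi th
  fun_prop

theorem Phi_inj : Function.Injective Phi := by
  intro a b h
  have h1 : pP a.1 = pP b.1 := congrArg Prod.fst h
  have h2 : th a.1 a.2 = th b.1 b.2 := congrArg Prod.snd h
  have h3 := pP_strictMono.injective h1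
  rw [h3] at h2
  exact Prod.ext h3 ((th_strictMono b.1).injective h2)

theorem Phi_surj : Function.Surjective Phi := by
  intro y
  obtain ⟨t, ht⟩ := pP_surj y.1
  obtain ⟨x, hx⟩ := th_surj t y.2
  exact ⟨(t, x), Prod.ext ht hx⟩

/-- Derivative of the new angle with respect to the first variable. -/
noncomputable def tht (t x : ℝ) : ℝ := deriv be t * sin (2 * x) + deriv ga t * sin (4 * x)

open ContinuousLinearMap in
theorem Phi_hd (z : ℝ × ℝ) : HasFDerivAt Phi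
    ((pP' z.1 • fst ℝ ℝ ℝ).prod (tht z.1 z.2 • fst ℝ ℝ ℝ + thx z.1 z.2 • snd ℝ ℝ ℝ)) z := by
  have f1 : HasFDerivAt (fun z : ℝ × ℝ => z.1) (fst ℝ ℝ ℝ) z := hasFDerivAt_fst
  have f2 : HasFDerivAt (fun z : ℝ × ℝ => z.2) (snd ℝ ℝ ℝ) z := hasFDerivAt_snd
  have hb : HasDerivAt be (deriv be z.1) z.1 :=
    (be_smooth.differentiable (by simp) z.1).hasDerivAt
  have hg : HasDerivAt ga (deriv ga z.1) z.1 :=
    (ga_smooth.differentiable (by simp) z.1).hasDerivAt
  have a1 : HasFDerivAt (fun z : ℝ × ℝ => pP z.1) (pP' z.1 • fst ℝ ℝ ℝ) z :=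
    (pP_hd z.1).comp_hasFDerivAt z f1
  have a2 : HasFDerivAt (fun z : ℝ × ℝ => be z.1) (deriv be z.1 • fst ℝ ℝ ℝ) z :=
    hb.comp_hasFDerivAt z f1
  have a3 : HasFDerivAt (fun z : ℝ × ℝ => ga z.1) (deriv ga z.1 • fst ℝ ℝ ℝ) z :=
    hg.comp_hasFDerivAt z f1
  have a4 : HasFDerivAt (fun z : ℝ × ℝ => sin (2 * z.2))
      (cos (2 * z.2) • (2 : ℝ) • snd ℝ ℝ ℝ) z := (f2.const_mul (2 : ℝ)).sin
  have a5 : HasFDerivAt (fun z : ℝ × ℝ => sin (4 * z.2))
      (cos (4 * z.2) • (4 : ℝ) • snd ℝ ℝ ℝ) z := (f2.const_mul (4 : ℝ)).sin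
  have a6 := (f2.add (a2.mul a4)).add (a3.mul a5)
  refine a1.prodMk (a6.congr_fderiv ?_)
  ext <;> simp [tht, thx] <;> ring

/-- The inverse of the derivative of the change of coordinates. -/
noncomputable def Linv (z v : ℝ × ℝ) : ℝ × ℝ :=
  (v.1 / pP' z.1, (v.2 - tht z.1 z.2 * (v.1 / pP' z.1)) / thx z.1 z.2)

open ContinuousLinearMap in
/-- The derivative of the change of coordinates is invertible. -/
noncomputable def Leq (z : ℝ × ℝ) : (ℝ × ℝ) ≃L[ℝ] (ℝ × ℝ) :=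
  ContinuousLinearEquiv.equivOfInverse
    ((pP' z.1 • fst ℝ ℝ ℝ).prod (tht z.1 z.2 • fst ℝ ℝ ℝ + thx z.1 z.2 • snd ℝ ℝ ℝ))
    (((pP' z.1)⁻¹ • fst ℝ ℝ ℝ).prod ((thx z.1 z.2)⁻¹ • (snd ℝ ℝ ℝ -
      (tht z.1 z.2 * (pP' z.1)⁻¹) • fst ℝ ℝ ℝ)))
    (by
      intro v
      have h1 := (pP'_pos z.1).ne'
      have h2 := (thx_pos z.1 z.2).ne'
      ext
      · simp
        field_simp
      · simp
        field_simp
        ring)
    (by
      intro v
      have h1 := (pP'_pos z.1).ne'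
      have h2 := (thx_pos z.1 z.2).ne'
      ext
      · simp
        field_simp
      · simp
        field_simp
        ring)

theorem Phi_hd' (z : ℝ × ℝ) : HasFDerivAt Phi (Leq z : (ℝ × ℝ) →L[ℝ] (ℝ × ℝ)) z := Phi_hd z

theorem Phi_shd (z : ℝ × ℝ) : HasStrictFDerivAt Phi (Leq z : (ℝ × ℝ) →L[ℝ] (ℝ × ℝ)) z :=
  Phi_smooth.contDiffAt.hasStrictFDerivAt' (Phi_hd' z) (by simp)

/-- The change of coordinates as a homeomorphism. -/
noncomputable def PhiH : (ℝ × ℝ) ≃ₜ (ℝ × ℝ) :=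
  (Equiv.ofBijective Phi ⟨Phi_inj, Phi_surj⟩).toHomeomorphOfContinuousOpen Phi_smooth.continuous
    (isOpenMap_of_hasStrictFDerivAt_equiv Phi_shd)

theorem PhiH_apply (z : ℝ × ℝ) : PhiH z = Phi z := rfl

/-- The inverse. -/
noncomputable def Psi (z : ℝ × ℝ) : ℝ × ℝ := PhiH.symm z

theorem Phi_Psi (z : ℝ × ℝ) : Phi (Psi z) = z := PhiH.apply_symm_apply z

theorem Psi_Phi (z : ℝ × ℝ) : Psi (Phi z) = z := PhiH.symm_apply_apply z

theorem Psi_smooth : ContDiff ℝ ∞ Psi :=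
  PhiH.contDiff_symm (f₀' := Leq) Phi_hd' Phi_smooth

theorem th_period (t x : ℝ) : th t (x + 2 * π) = th t x + 2 * π := by
  unfold th
  have h1 : sin (2 * (x + 2 * π)) = sin (2 * x) := by
    have := Real.sin_add_nat_mul_two_pi (2 * x) 2
    rw [← this]
    push_cast
    ring_nf
  have h2 : sin (4 * (x + 2 * π)) = sin (4 * x) := by
    have := Real.sin_add_nat_mul_two_pi (4 * x) 4
    rw [← this]
    push_cast
    ring_nf
  rw [h1, h2]
  ring

theorem Psi_period (p x : ℝ) : Psi (p, x + 2 * π) = ((Psi (p, x)).1, (Psi (p, x)).2 + 2 * π) := by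
  apply Phi_inj
  rw [Phi_Psi]
  have h := Phi_Psi (p, x)
  unfold Phi at h ⊢
  simp only [Prod.mk.injEq] at h ⊢
  rw [th_period, h.1, h.2]
  exact ⟨rfl, rfl⟩

theorem Psi_high {p : ℝ} (hp : 9 / 2 ≤ p) (x : ℝ) : Psi (p, x) = (√(2 * p) - 2, x) := by
  apply Phi_inj
  rw [Phi_Psi]
  have h1 : 3 ≤ √(2 * p) := by
    rw [show (3 : ℝ) = √9 by rw [show (9 : ℝ) = 3 ^ 2 by norm_num]; simp]
    exact Real.sqrt_le_sqrt (by linarith)
  unfold Phi
  simp only [Prod.mk.injEq]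
  constructor
  · rw [pP_high (by linarith)]
    have := Real.sq_sqrt (by linarith : 0 ≤ 2 * p)
    rw [show √(2 * p) - 2 + 2 = √(2 * p) by ring, this]
    ring
  · unfold th
    rw [be_high (by linarith), ga_high (by linarith)]
    ring

/-- First coordinate of the model. -/
noncomputable def F1 (z : ℝ × ℝ) : ℝ := pA z.1 * cos z.2

/-- Second coordinate of the model. -/
noncomputable def F2 (z : ℝ × ℝ) : ℝ :=
  -(sin z.2 * ((z.1 + 2) * sin z.2 ^ 2 + pw z.1 * cos z.2 ^ 2))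

theorem F1_smooth : ContDiff ℝ ∞ F1 := by
  have h1 := pA_smooth
  have h4 : ContDiff ℝ ∞ Real.cos := Real.contDiff_cos
  unfold F1
  fun_prop

theorem F2_smooth : ContDiff ℝ ∞ F2 := by
  have h1 := pw_smooth
  have h3 : ContDiff ℝ ∞ Real.sin := Real.contDiff_sin
  have h4 : ContDiff ℝ ∞ Real.cos := Real.contDiff_cos
  unfold F2
  fun_prop

open ContinuousLinearMap in
theorem F1_hd (z : ℝ × ℝ) : HasFDerivAt F1
    ((pA' z.1 * cos z.2) • fst ℝ ℝ ℝ + (-(pA z.1 * sin z.2)) • snd ℝ ℝ ℝ) z := by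
  have f1 : HasFDerivAt (fun z : ℝ × ℝ => z.1) (fst ℝ ℝ ℝ) z := hasFDerivAt_fst
  have f2 : HasFDerivAt (fun z : ℝ × ℝ => z.2) (snd ℝ ℝ ℝ) z := hasFDerivAt_snd
  have a1 : HasFDerivAt (fun z : ℝ × ℝ => pA z.1) (pA' z.1 • fst ℝ ℝ ℝ) z :=
    (pA_hd z.1).comp_hasFDerivAt z f1
  have a3 := f2.cos
  refine (a1.mul a3).congr_fderiv ?_
  ext
  · simp
    ring
  · simp

open ContinuousLinearMap in
theorem F2_hd (z : ℝ × ℝ) : HasFDerivAt F2
    ((-(sin z.2 * (sin z.2 ^ 2 + pw' z.1 * cos z.2 ^ 2))) • fst ℝ ℝ ℝ +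
      (-(cos z.2 * (3 * (z.1 + 2) * sin z.2 ^ 2 + pw z.1 * (cos z.2 ^ 2 - 2 * sin z.2 ^ 2)))) •
        snd ℝ ℝ ℝ) z := by
  have f1 : HasFDerivAt (fun z : ℝ × ℝ => z.1) (fst ℝ ℝ ℝ) z := hasFDerivAt_fst
  have f2 : HasFDerivAt (fun z : ℝ × ℝ => z.2) (snd ℝ ℝ ℝ) z := hasFDerivAt_snd
  have a1 : HasFDerivAt (fun z : ℝ × ℝ => pw z.1) (pw' z.1 • fst ℝ ℝ ℝ) z :=
    (pw_hd z.1).comp_hasFDerivAt z f1
  have a3 := f2.cos
  have a4 := f2.sin
  refine ((a4.mul (((f1.add_const 2).mul (a4.pow 2)).add (a1.mul (a3.pow 2)))).neg).congr_fderiv ?_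
  ext <;> simp <;> ring

theorem F_wedge (z v w : ℝ × ℝ) :
    fderiv ℝ F1 z v * fderiv ℝ F2 z w - fderiv ℝ F1 z w * fderiv ℝ F2 z v =
      -(hh z.1 z.2 * (v.1 * w.2 - v.2 * w.1)) := by
  rw [(F1_hd z).fderiv, (F2_hd z).fderiv]
  simp only [add_apply, smul_apply,
    ContinuousLinearMap.coe_fst', ContinuousLinearMap.coe_snd', smul_eq_mul]
  unfold hh
  have h : sin z.2 ^ 2 = 1 - cos z.2 ^ 2 := by linarith [sin_sq_add_cos_sq z.2]
  ring_nf
  rw [show sin z.2 ^ 4 = (sin z.2 ^ 2) ^ 2 by ring, h]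
  ring

theorem Phi_wedge (z v w : ℝ × ℝ) :
    (fderiv ℝ Phi z v).1 * (fderiv ℝ Phi z w).2 - (fderiv ℝ Phi z v).2 * (fderiv ℝ Phi z w).1 =
      hh z.1 z.2 * (v.1 * w.2 - v.2 * w.1) := by
  rw [(Phi_hd z).fderiv, ← thx_eq]
  simp only [ContinuousLinearMap.prod_apply, add_apply, smul_apply,
    ContinuousLinearMap.coe_fst', ContinuousLinearMap.coe_snd', smul_eq_mul]
  ring

/-- The model map in the new coordinates has the Jacobian determinant `-1`. -/
theorem FPsi_wedge (z v w : ℝ × ℝ) :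
    fderiv ℝ (F1 ∘ Psi) z v * fderiv ℝ (F2 ∘ Psi) z w -
      fderiv ℝ (F1 ∘ Psi) z w * fderiv ℝ (F2 ∘ Psi) z v = -(v.1 * w.2 - v.2 * w.1) := by
  have dPsi : DifferentiableAt ℝ Psi z := Psi_smooth.differentiable (by simp) z
  have d1 : DifferentiableAt ℝ F1 (Psi z) := F1_smooth.differentiable (by simp) _
  have d2 : DifferentiableAt ℝ F2 (Psi z) := F2_smooth.differentiable (by simp) _
  have dPhi : DifferentiableAt ℝ Phi (Psi z) := Phi_smooth.differentiable (by simp) _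
  rw [fderiv_comp z d1 dPsi, fderiv_comp z d2 dPsi]
  simp only [ContinuousLinearMap.comp_apply]
  have hid : ∀ v, fderiv ℝ Phi (Psi z) (fderiv ℝ Psi z v) = v := by
    intro v
    have h1 : fderiv ℝ (Phi ∘ Psi) z = ContinuousLinearMap.id ℝ (ℝ × ℝ) := by
      rw [show Phi ∘ Psi = id from funext Phi_Psi, fderiv_id]
    rw [fderiv_comp z dPhi dPsi] at h1
    exact congrArg (fun L : (ℝ × ℝ) →L[ℝ] (ℝ × ℝ) => L v) h1
  have h := Phi_wedge (Psi z) (fderiv ℝ Psi z v) (fderiv ℝ Psi z w)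
  rw [hid, hid] at h
  rw [F_wedge, ← h]

/-- **Model map.** -/
theorem exists_model (κ : ℝ) (hκ : 0 < κ) : ∃ G1 G2 : ℝ × ℝ → ℝ, ContDiff ℝ ∞ G1 ∧
    ContDiff ℝ ∞ G2 ∧ (∀ p x, G1 (p, x + 2 * π) = G1 (p, x)) ∧
    (∀ p x, G2 (p, x + 2 * π) = G2 (p, x)) ∧
    (∀ p x, 9 / 2 ≤ κ ^ 2 * p → G1 (p, x) = √(2 * p) * cos x ∧ G2 (p, x) = -(√(2 * p) * sin x)) ∧
    ∀ z v w : ℝ × ℝ, fderiv ℝ G1 z v * fderiv ℝ G2 z w - fderiv ℝ G1 z w * fderiv ℝ G2 z v =
      -(v.1 * w.2 - v.2 * w.1) := by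
  have hs : ContDiff ℝ ∞ (fun z : ℝ × ℝ => (κ ^ 2 * z.1, z.2)) := by fun_prop
  have g1 : ContDiff ℝ ∞ (F1 ∘ Psi) := F1_smooth.comp Psi_smooth
  have g2 : ContDiff ℝ ∞ (F2 ∘ Psi) := F2_smooth.comp Psi_smooth
  refine ⟨fun z => κ⁻¹ * (F1 ∘ Psi) (κ ^ 2 * z.1, z.2), fun z => κ⁻¹ * (F2 ∘ Psi) (κ ^ 2 * z.1, z.2),
    contDiff_const.mul (g1.comp hs), contDiff_const.mul (g2.comp hs), ?_, ?_, ?_, ?_⟩
  · intro p x
    simp only [Function.comp_apply, Psi_period, F1, Real.cos_add_two_pi]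
  · intro p x
    simp only [Function.comp_apply, Psi_period, F2, Real.cos_add_two_pi, Real.sin_add_two_pi]
  · intro p x hp
    have hk : 0 < κ ^ 2 := by positivity
    have h1 : 3 ≤ √(2 * (κ ^ 2 * p)) := by
      rw [show (3 : ℝ) = √9 by rw [show (9 : ℝ) = 3 ^ 2 by norm_num]; simp]
      exact Real.sqrt_le_sqrt (by linarith)
    have h2 : √(2 * (κ ^ 2 * p)) = κ * √(2 * p) := by
      rw [show 2 * (κ ^ 2 * p) = κ ^ 2 * (2 * p) by ring, Real.sqrt_mul hk.le,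
        Real.sqrt_sq hκ.le]
    simp only [Function.comp_apply, Psi_high hp, F1, F2]
    rw [(pA_high (by linarith)).1, (pw_high (by linarith)).1, h2]
    constructor
    · field_simp
      ring
    · have h3 := sin_sq_add_cos_sq x
      field_simp
      rw [show (κ * √(2 * p) - 2 + 2) = κ * √(2 * p) by ring]
      linear_combination (-(κ * √(2 * p) * sin x)) * h3
  · intro z v w
    have dS : HasFDerivAt (fun z : ℝ × ℝ => (κ ^ 2 * z.1, z.2))
        ((κ ^ 2 • ContinuousLinearMap.fst ℝ ℝ ℝ).prod (ContinuousLinearMap.snd ℝ ℝ ℝ)) z :=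
      (hasFDerivAt_fst.const_mul (κ ^ 2)).prodMk hasFDerivAt_snd
    have e1 := ((g1.differentiable (by simp) (κ ^ 2 * z.1, z.2)).hasFDerivAt.comp z dS).const_mul κ⁻¹
    have e2 := ((g2.differentiable (by simp) (κ ^ 2 * z.1, z.2)).hasFDerivAt.comp z dS).const_mul κ⁻¹
    have f1 := e1.fderiv
    have f2 := e2.fderiv
    simp only [Function.comp_def] at f1 f2 ⊢
    rw [f1, f2]
    simp only [smul_apply, ContinuousLinearMap.comp_apply,
      ContinuousLinearMap.prod_apply, ContinuousLinearMap.coe_fst', ContinuousLinearMap.coe_snd',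
      smul_eq_mul]
    have h := FPsi_wedge (κ ^ 2 * z.1, z.2) (κ ^ 2 * v.1, v.2) (κ ^ 2 * w.1, w.2)
    simp only [Function.comp_def] at h
    have hk : κ * κ⁻¹ = 1 := mul_inv_cancel₀ hκ.ne'
    linear_combination κ⁻¹ ^ 2 * h - (v.1 * w.2 - v.2 * w.1) * (κ * κ⁻¹ + 1) * hk

end Pool.Agent.Q39.BP
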