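import Pool.Agent.Q39.BP.G

set_option autoImplicit false

/-!
# Gluing two local models
-/

namespace Pool.Agent.Q39.BP

open Real
open scoped ContDiff Topology

section
variable {E : Type*} [NormedAddCommGroup E] [NormedSpace ℝ E]

/-- The complex coordinate. -/
noncomputable def zc (x y : E →L[ℝ] ℝ) : E →L[ℝ] ℂ :=
  x.smulRight (1 : ℂ) + y.smulRight Complex.I

theorem zc_re (x y : E →L[ℝ] ℝ) (z : E) : (zc x y z).re = x z := by simp [zc]

theorem zc_im (x y : E →L[ℝ] ℝ) (z : E) : (zc x y z).im = y z := by simp [zc]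

theorem zc_sq (x y : E →L[ℝ] ℝ) (z : E) : ‖zc x y z‖ ^ 2 = x z ^ 2 + y z ^ 2 := by
  rw [Complex.sq_norm, Complex.normSq_apply, zc_re, zc_im]
  ring

/-- Local branches of the angle. -/
theorem exists_branch (x y : E →L[ℝ] ℝ) (z : E) (hz : 0 < x z ^ 2 + y z ^ 2) :
    ∃ Θ : E → ℝ, ContDiffAt ℝ ∞ Θ z ∧
      (∀ z', 0 < x z' ^ 2 + y z' ^ 2 → ∃ k : ℤ, Θ z' = (zc x y z').arg + k * (2 * π)) ∧
      ∃ L : E →L[ℝ] ℝ, HasFDerivAt Θ L z ∧
        ∀ v, L v = (x z * y v - y z * x v) / (x z ^ 2 + y z ^ 2) := by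
  have key : ∀ x y : E →L[ℝ] ℝ, 0 < x z ^ 2 + y z ^ 2 → zc x y z ∈ Complex.slitPlane →
      ContDiffAt ℝ ∞ (fun z => (zc x y z).arg) z ∧
      ∃ L : E →L[ℝ] ℝ, HasFDerivAt (fun z => (zc x y z).arg) L z ∧
        ∀ v, L v = (x z * y v - y z * x v) / (x z ^ 2 + y z ^ 2) := by
    intro x y hz hm
    have h1 : ∀ z, (zc x y z).arg = (Complex.log (zc x y z)).im := fun z =>
      (Complex.log_im _).symm
    simp only [h1]
    constructor
    · have h2 : ContDiffAt ℝ ∞ Complex.log (zc x y z) :=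
        (Complex.contDiffAt_log hm).restrict_scalars ℝ
      have h3 : ContDiffAt ℝ ∞ (fun z => Complex.log (zc x y z)) z :=
        ContDiffAt.comp z h2 (zc x y).contDiff.contDiffAt
      exact Complex.imCLM.contDiff.contDiffAt.comp z h3
    · have h2 := (Complex.hasStrictFDerivAt_log_real hm).hasFDerivAt
      have h3 := Complex.imCLM.hasFDerivAt.comp z (h2.comp z (zc x y).hasFDerivAt)
      refine ⟨_, h3, fun v => ?_⟩
      have h4 : x z * x z + y z * y z ≠ 0 := by nlinarith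
      simp only [ContinuousLinearMap.comp_apply, smul_apply,
        one_apply_eq_self, Complex.imCLM_apply, smul_eq_mul, Complex.mul_im,
        Complex.inv_re, Complex.inv_im, zc_re, zc_im, Complex.normSq_apply]
      field_simp
      ring
  by_cases hm : zc x y z ∈ Complex.slitPlane
  · obtain ⟨h1, h2⟩ := key x y hz hm
    exact ⟨_, h1, fun z' _ => ⟨0, by simp⟩, h2⟩
  · have hneg : ∀ z, zc (-x) (-y) z = -zc x y z := by
      intro z
      apply Complex.ext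
      · rw [zc_re, Complex.neg_re, zc_re]
        rfl
      · rw [zc_im, Complex.neg_im, zc_im]
        rfl
    have hm' : zc (-x) (-y) z ∈ Complex.slitPlane := by
      rw [hneg]
      rw [Complex.mem_slitPlane_iff] at hm ⊢
      push Not at hm
      rw [zc_re, zc_im] at hm
      rw [Complex.neg_re, Complex.neg_im, zc_re, zc_im]
      left
      have h5 : x z ≠ 0 := by
        intro h
        rw [h, hm.2] at hz
        simp at hz
      have := lt_of_le_of_ne hm.1 h5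
      linarith
    obtain ⟨h1, L, h2, h3⟩ := key (-x) (-y) (by simpa using hz) hm'
    refine ⟨fun z => (zc (-x) (-y) z).arg + π, h1.add contDiffAt_const, fun z' hz' => ?_,
      L, h2.add_const π, fun v => ?_⟩
    · have hne : zc x y z' ≠ 0 := by
        intro h
        have := zc_sq x y z'
        rw [h] at this
        simp at this
        linarith
      have h4 := Complex.arg_neg_coe_angle hne
      rw [← hneg] at h4
      have h5 : (((zc (-x) (-y) z').arg + π : ℝ) : Real.Angle) = (zc x y z').arg := by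
        rw [Real.Angle.coe_add, h4, add_assoc, Real.Angle.coe_pi_add_coe_pi, add_zero]
      obtain ⟨k, hk⟩ := Real.Angle.angle_eq_iff_two_pi_dvd_sub.1 h5
      exact ⟨k, by linarith⟩
    · rw [h3]
      simp

theorem per_int {f : ℝ → ℝ} (h : ∀ x, f (x + 2 * π) = f x) (k : ℤ) (x : ℝ) :
    f (x + k * (2 * π)) = f x := by
  have h1 : Function.Periodic f (2 * π) := h
  exact (h1.int_mul k) x

/-- The two-form `-d(u (x dy - y dx))`, up to the sign. -/
noncomputable def tform (x y : E →L[ℝ] ℝ) (u : E → ℝ) (z v w : E) : ℝ :=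
  fderiv ℝ u z v * (x z * y w - y z * x w) - fderiv ℝ u z w * (x z * y v - y z * x v) +
    2 * u z * (x v * y w - x w * y v)

/-- The map away from the origin. -/
noncomputable def outer (G : ℝ × ℝ → ℝ) (x y : E →L[ℝ] ℝ) (u : E → ℝ) (z : E) : ℝ :=
  G ((x z ^ 2 + y z ^ 2) * u z, (zc x y z).arg)

theorem outer_local {G1 G2 : ℝ × ℝ → ℝ} (hG1 : ContDiff ℝ ∞ G1) (hG2 : ContDiff ℝ ∞ G2)
    (p1 : ∀ p x, G1 (p, x + 2 * π) = G1 (p, x)) (p2 : ∀ p x, G2 (p, x + 2 * π) = G2 (p, x))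
    (hW : ∀ z v w : ℝ × ℝ, fderiv ℝ G1 z v * fderiv ℝ G2 z w - fderiv ℝ G1 z w * fderiv ℝ G2 z v =
      -(v.1 * w.2 - v.2 * w.1)) (x y : E →L[ℝ] ℝ) (u : E → ℝ) (z : E)
    (hu : ContDiffAt ℝ ∞ u z) (hz : 0 < x z ^ 2 + y z ^ 2) :
    ContDiffAt ℝ ∞ (outer G1 x y u) z ∧ ContDiffAt ℝ ∞ (outer G2 x y u) z ∧
    ∀ v w, fderiv ℝ (outer G1 x y u) z v * fderiv ℝ (outer G2 x y u) z w -
      fderiv ℝ (outer G1 x y u) z w * fderiv ℝ (outer G2 x y u) z v = -tform x y u z v w := by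
  obtain ⟨Θ, hΘ, hk, L, hL, hLv⟩ := exists_branch x y z hz
  have hs : ContDiffAt ℝ ∞ (fun z => x z ^ 2 + y z ^ 2) z :=
    ((x.contDiff.pow 2).add (y.contDiff.pow 2)).contDiffAt
  have hev : ∀ᶠ z' in 𝓝 z, 0 < x z' ^ 2 + y z' ^ 2 :=
    hs.continuousAt.eventually (lt_mem_nhds hz)
  have e : ∀ G : ℝ × ℝ → ℝ, (∀ p x, G (p, x + 2 * π) = G (p, x)) →
      outer G x y u =ᶠ[𝓝 z] fun z => G ((x z ^ 2 + y z ^ 2) * u z, Θ z) := by
    intro G hG
    filter_upwards [hev] with z' hz'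
    obtain ⟨k, hk'⟩ := hk z' hz'
    have h5 := per_int (f := fun t => G ((x z' ^ 2 + y z' ^ 2) * u z', t)) (hG _) k (zc x y z').arg
    change G (_, _) = G (_, Θ z')
    rw [hk']
    exact h5.symm
  have hP : ContDiffAt ℝ ∞ (fun z => ((x z ^ 2 + y z ^ 2) * u z, Θ z)) z :=
    (hs.mul hu).prodMk hΘ
  refine ⟨(hG1.contDiffAt.comp z hP).congr_of_eventuallyEq (e G1 p1),
    (hG2.contDiffAt.comp z hP).congr_of_eventuallyEq (e G2 p2), fun v w => ?_⟩
  rw [(e G1 p1).fderiv_eq, (e G2 p2).fderiv_eq]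
  have hu' : HasFDerivAt u (fderiv ℝ u z) z := (hu.differentiableAt (by simp)).hasFDerivAt
  have hs' : HasFDerivAt (fun z => x z ^ 2 + y z ^ 2) ((2 * x z) • x + (2 * y z) • y) z := by
    have := (x.hasFDerivAt (x := z)).pow 2 |>.add ((y.hasFDerivAt (x := z)).pow 2)
    refine this.congr_fderiv ?_
    ext v
    simp
  have hd := (hs'.mul hu').prodMk hL
  have f1 := ((hG1.differentiable (by simp) ((x z ^ 2 + y z ^ 2) * u z, Θ z)).hasFDerivAt.comp z
    hd).fderiv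
  have f2 := ((hG2.differentiable (by simp) ((x z ^ 2 + y z ^ 2) * u z, Θ z)).hasFDerivAt.comp z
    hd).fderiv
  have g1 : fderiv ℝ (fun z => G1 ((x z ^ 2 + y z ^ 2) * u z, Θ z)) z = _ := f1
  have g2 : fderiv ℝ (fun z => G2 ((x z ^ 2 + y z ^ 2) * u z, Θ z)) z = _ := f2
  rw [g1, g2]
  simp only [ContinuousLinearMap.comp_apply]
  rw [hW]
  simp only [ContinuousLinearMap.prod_apply, add_apply, smul_apply, smul_eq_mul, hLv, tform]
  field_simp
  ring

/-- The map near the origin. -/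
noncomputable def inner1 (x : E →L[ℝ] ℝ) (u : E → ℝ) (z : E) : ℝ := √(2 * u z) * x z

theorem inner_local (x y : E →L[ℝ] ℝ) (u : E → ℝ) (z : E)
    (hu : ContDiffAt ℝ ∞ u z) (hz : 0 < u z) :
    ContDiffAt ℝ ∞ (inner1 x u) z ∧ ContDiffAt ℝ ∞ (inner1 (-y) u) z ∧
    ∀ v w, fderiv ℝ (inner1 x u) z v * fderiv ℝ (inner1 (-y) u) z w -
      fderiv ℝ (inner1 x u) z w * fderiv ℝ (inner1 (-y) u) z v = -tform x y u z v w := by
  have h2 : 2 * u z ≠ 0 := by positivity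
  have hr : ContDiffAt ℝ ∞ (fun z => √(2 * u z)) z := (contDiffAt_const.mul hu).sqrt h2
  have hu' : HasFDerivAt u (fderiv ℝ u z) z := (hu.differentiableAt (by simp)).hasFDerivAt
  refine ⟨hr.mul x.contDiff.contDiffAt, hr.mul (-y).contDiff.contDiffAt, fun v w => ?_⟩
  have hr' := (hu'.const_mul 2).sqrt h2
  have f1 := (hr'.mul (x.hasFDerivAt (x := z))).fderiv
  have f2 := (hr'.mul ((-y).hasFDerivAt (x := z))).fderiv
  have e1 : fderiv ℝ (inner1 x u) z = _ := f1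
  have e2 : fderiv ℝ (inner1 (-y) u) z = _ := f2
  rw [e1, e2]
  have hpos : 0 < √(2 * u z) := Real.sqrt_pos.2 (by positivity)
  have hsq : √(2 * u z) ^ 2 = 2 * u z := Real.sq_sqrt (by positivity)
  simp only [add_apply, smul_apply, neg_apply, smul_eq_mul, tform]
  generalize √(2 * u z) = r at *
  rw [← hsq]
  field_simp
  ring

/-- **Gluing.** -/
theorem glue {U : Set E} (hU : IsOpen U) (x y : E →L[ℝ] ℝ) (u : E → ℝ)
    (hu : ContDiffOn ℝ ∞ u U) {a b p0 : ℝ} (ha : 0 < a) (hab : a < b) (hp0 : 0 < p0)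
    (h1 : ∀ z ∈ U, x z ^ 2 + y z ^ 2 ≤ b → 0 < u z)
    (h2 : ∀ z ∈ U, a ≤ x z ^ 2 + y z ^ 2 → x z ^ 2 + y z ^ 2 ≤ b →
      p0 ≤ (x z ^ 2 + y z ^ 2) * u z) :
    ∃ X Y : E → ℝ, ∀ z ∈ U, ContDiffAt ℝ ∞ X z ∧ ContDiffAt ℝ ∞ Y z ∧
      ∀ v w, fderiv ℝ X z v * fderiv ℝ Y z w - fderiv ℝ X z w * fderiv ℝ Y z v =
        -tform x y u z v w := by
  obtain ⟨κ, hκ, hκp⟩ : ∃ κ : ℝ, 0 < κ ∧ 9 / 2 = κ ^ 2 * p0 := by
    refine ⟨√(9 / 2 / p0), Real.sqrt_pos.2 (by positivity), ?_⟩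
    rw [Real.sq_sqrt (by positivity)]
    field_simp
  obtain ⟨G1, G2, hG1, hG2, q1, q2, hst, hW⟩ := exists_model κ hκ
  classical
  have hsc : Continuous fun z => x z ^ 2 + y z ^ 2 := by fun_prop
  have agree : ∀ z ∈ U, a ≤ x z ^ 2 + y z ^ 2 → x z ^ 2 + y z ^ 2 ≤ b →
      outer G1 x y u z = inner1 x u z ∧ outer G2 x y u z = inner1 (-y) u z := by
    intro z hz hza hzb
    have h3 := h2 z hz hza hzb
    have h4 : 9 / 2 ≤ κ ^ 2 * ((x z ^ 2 + y z ^ 2) * u z) := by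
      rw [hκp]
      exact mul_le_mul_of_nonneg_left h3 (by positivity)
    obtain ⟨a1, a2⟩ := hst ((x z ^ 2 + y z ^ 2) * u z) (zc x y z).arg h4
    have h5 : √(2 * ((x z ^ 2 + y z ^ 2) * u z)) = √(2 * u z) * ‖zc x y z‖ := by
      rw [← zc_sq, show 2 * (‖zc x y z‖ ^ 2 * u z) = (2 * u z) * ‖zc x y z‖ ^ 2 by ring,
        Real.sqrt_mul' _ (sq_nonneg _), Real.sqrt_sq (norm_nonneg _)]
    unfold outer inner1
    rw [a1, a2, h5, mul_assoc, mul_assoc, Complex.norm_mul_cos_arg, Complex.norm_mul_sin_arg,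
      zc_re, zc_im]
    refine ⟨rfl, ?_⟩
    rw [neg_apply]
    ring
  refine ⟨fun z => if x z ^ 2 + y z ^ 2 < b then inner1 x u z else outer G1 x y u z,
    fun z => if x z ^ 2 + y z ^ 2 < b then inner1 (-y) u z else outer G2 x y u z, fun z hz => ?_⟩
  have hu1 : ContDiffAt ℝ ∞ u z := hu.contDiffAt (hU.mem_nhds hz)
  rcases lt_or_ge (x z ^ 2 + y z ^ 2) b with hb | hb
  · have hev : ∀ᶠ z' in 𝓝 z, x z' ^ 2 + y z' ^ 2 < b :=
      hsc.continuousAt.eventually (gt_mem_nhds hb)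
    have e1 : (fun z => if x z ^ 2 + y z ^ 2 < b then inner1 x u z else outer G1 x y u z)
        =ᶠ[𝓝 z] inner1 x u := by
      filter_upwards [hev] with z' hz'
      rw [if_pos hz']
    have e2 : (fun z => if x z ^ 2 + y z ^ 2 < b then inner1 (-y) u z else outer G2 x y u z)
        =ᶠ[𝓝 z] inner1 (-y) u := by
      filter_upwards [hev] with z' hz'
      rw [if_pos hz']
    obtain ⟨b1, b2, b3⟩ := inner_local x y u z hu1 (h1 z hz hb.le)
    refine ⟨b1.congr_of_eventuallyEq e1, b2.congr_of_eventuallyEq e2, fun v w => ?_⟩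
    rw [e1.fderiv_eq, e2.fderiv_eq]
    exact b3 v w
  · have hev : ∀ᶠ z' in 𝓝 z, a < x z' ^ 2 + y z' ^ 2 :=
      hsc.continuousAt.eventually (lt_mem_nhds (lt_of_lt_of_le hab hb))
    have hevU : ∀ᶠ z' in 𝓝 z, z' ∈ U := hU.mem_nhds hz
    have e1 : (fun z => if x z ^ 2 + y z ^ 2 < b then inner1 x u z else outer G1 x y u z)
        =ᶠ[𝓝 z] outer G1 x y u := by
      filter_upwards [hev, hevU] with z' hz' hzU
      split_ifs with h
      · exact (agree z' hzU hz'.le h.le).1.symm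
      · rfl
    have e2 : (fun z => if x z ^ 2 + y z ^ 2 < b then inner1 (-y) u z else outer G2 x y u z)
        =ᶠ[𝓝 z] outer G2 x y u := by
      filter_upwards [hev, hevU] with z' hz' hzU
      split_ifs with h
      · exact (agree z' hzU hz'.le h.le).2.symm
      · rfl
    obtain ⟨b1, b2, b3⟩ := outer_local hG1 hG2 q1 q2 hW x y u z hu1 (by linarith)
    refine ⟨b1.congr_of_eventuallyEq e1, b2.congr_of_eventuallyEq e2, fun v w => ?_⟩
    rw [e1.fderiv_eq, e2.fderiv_eq]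
    exact b3 v w

end

end Pool.Agent.Q39.BP
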