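import Pool.Agent.Q39.BP.Defs
import Pool.Agent.Q39.BP.Est
import Pool.Agent.Q39.BP.K

set_option autoImplicit false

/-!
# The Bates-Peschke form is the pull-back of the standard form by an immersion
-/

namespace Pool.Agent.Q39.BP

open Real
open scoped ContDiff Topology

/-- `r₁²`. -/
def S1 (p : R4) : ℝ := p 0 ^ 2 + p 1 ^ 2

/-- `r₂²`. -/
def S2 (p : R4) : ℝ := p 2 ^ 2 + p 3 ^ 2

theorem S1_nonneg (p : R4) : 0 ≤ S1 p := by unfold S1; positivity

theorem S2_nonneg (p : R4) : 0 ≤ S2 p := by unfold S2; positivity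

theorem r1_sq (p : R4) : r1 p ^ 2 = S1 p := Real.sq_sqrt (S1_nonneg p)

theorem r2_sq (p : R4) : r2 p ^ 2 = S2 p := Real.sq_sqrt (S2_nonneg p)

theorem f_eq (p : R4) : f p = S1 p + S2 p - π := by
  unfold f
  rw [r1_sq, r2_sq]

/-- Coefficient of `α₁`. -/
noncomputable def U1 (p : R4) : ℝ := cos (S1 p) + (S1 p + S2 p - π) * aa (S2 p)

/-- Coefficient of `α₂`. -/
noncomputable def U2 (p : R4) : ℝ := cos (S2 p) + (S1 p + S2 p - π) * aa (S1 p)

theorem lam_eq (p v : R4) : lam p v = U1 p * alpha1 p v + U2 p * alpha2 p v := by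
  unfold lam sigma mu a U1 U2 aa
  rw [f_eq, r1_sq, r2_sq]
  ring

theorem U1_smooth : ContDiff ℝ ∞ U1 := by
  unfold U1 S1 S2 aa
  fun_prop

theorem U2_smooth : ContDiff ℝ ∞ U2 := by
  unfold U2 S1 S2 aa
  fun_prop

/-- The coordinate `p i`. -/
noncomputable def cr (i : Fin 4) : R4 →L[ℝ] ℝ := ContinuousLinearMap.proj i

theorem cr_apply (i : Fin 4) (p : R4) : cr i p = p i := rfl

theorem fderiv_lam (p v w : R4) : fderiv ℝ (fun q => lam q w) p v =
    fderiv ℝ U1 p v * alpha1 p w + U1 p * alpha1 v w +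
      (fderiv ℝ U2 p v * alpha2 p w + U2 p * alpha2 v w) := by
  have h1 : HasFDerivAt U1 (fderiv ℝ U1 p) p :=
    (U1_smooth.differentiable (by simp) p).hasFDerivAt
  have h2 : HasFDerivAt U2 (fderiv ℝ U2 p) p :=
    (U2_smooth.differentiable (by simp) p).hasFDerivAt
  have a1 : HasFDerivAt (fun q : R4 => alpha1 q w) (w 1 • cr 0 - w 0 • cr 1) p := by
    have := ((cr 0).hasFDerivAt (x := p)).mul_const (w 1) |>.sub
      (((cr 1).hasFDerivAt (x := p)).mul_const (w 0))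
    exact this
  have a2 : HasFDerivAt (fun q : R4 => alpha2 q w) (w 3 • cr 2 - w 2 • cr 3) p := by
    have := ((cr 2).hasFDerivAt (x := p)).mul_const (w 3) |>.sub
      (((cr 3).hasFDerivAt (x := p)).mul_const (w 2))
    exact this
  have h3 := (h1.mul a1).add (h2.mul a2)
  have h4 : (fun q => lam q w) = fun q => U1 q * alpha1 q w + U2 q * alpha2 q w := by
    funext q
    exact lam_eq q w
  rw [h4]
  have h5 : fderiv ℝ (fun q => U1 q * alpha1 q w + U2 q * alpha2 q w) p = _ := h3.fderiv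
  rw [h5]
  simp only [add_apply, smul_apply, sub_apply, smul_eq_mul, cr_apply]
  unfold alpha1 alpha2
  ring

theorem omega_eq (p v w : R4) :
    omega p v w = -(tform (cr 0) (cr 1) U1 p v w + tform (cr 2) (cr 3) U2 p v w) := by
  unfold omega extDer tform
  rw [fderiv_lam, fderiv_lam]
  simp only [cr_apply]
  unfold alpha1 alpha2
  ring

theorem shell_open (ε : ℝ) : IsOpen (Shell ε) := by
  have hc : Continuous fun p : R4 => |f p| := by
    have : f = fun p => S1 p + S2 p - π := funext f_eq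
    rw [this]
    unfold S1 S2
    fun_prop
  exact isOpen_lt hc continuous_const

theorem main_small {ε : ℝ} (h5 : ε ≤ 1 / 5) : ∃ ψ : R4 → R4, ∀ p ∈ Shell ε,
    ContDiffAt ℝ ∞ ψ p ∧ ∀ v w, omega0 (fderiv ℝ ψ p v) (fderiv ℝ ψ p w) = omega p v w := by
  have hf : ∀ p ∈ Shell ε, |S1 p + S2 p - π| ≤ 1 / 5 := by
    intro p hp
    rw [← f_eq]
    exact (le_of_lt hp).trans h5
  have e1 : ∀ p ∈ Shell ε, S1 p ≤ 1 / 2 → 1 / 10 ≤ U1 p := fun p hp h =>
    est (S1 p) (S2 p) (S1_nonneg p) h (hf p hp)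
  have e2 : ∀ p ∈ Shell ε, S2 p ≤ 1 / 2 → 1 / 10 ≤ U2 p := by
    intro p hp h
    have := est (S2 p) (S1 p) (S2_nonneg p) h (by rw [add_comm (S2 p)]; exact hf p hp)
    rw [add_comm (S2 p)] at this
    exact this
  obtain ⟨X1, Y1, h1⟩ := glue (shell_open ε) (cr 0) (cr 1) U1 U1_smooth.contDiffOn
    (a := 2 / 5) (b := 1 / 2) (p0 := 1 / 25) (by norm_num) (by norm_num) (by norm_num)
    (fun p hp h => lt_of_lt_of_le (by norm_num) (e1 p hp h))
    (fun p hp h h' => by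
      have := e1 p hp h'
      calc (1 / 25 : ℝ) = 2 / 5 * (1 / 10) := by norm_num
        _ ≤ (cr 0 p ^ 2 + cr 1 p ^ 2) * U1 p := mul_le_mul h this (by norm_num) (by positivity))
  obtain ⟨X2, Y2, h2⟩ := glue (shell_open ε) (cr 2) (cr 3) U2 U2_smooth.contDiffOn
    (a := 2 / 5) (b := 1 / 2) (p0 := 1 / 25) (by norm_num) (by norm_num) (by norm_num)
    (fun p hp h => lt_of_lt_of_le (by norm_num) (e2 p hp h))
    (fun p hp h h' => by
      have := e2 p hp h'
      calc (1 / 25 : ℝ) = 2 / 5 * (1 / 10) := by norm_num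
        _ ≤ (cr 2 p ^ 2 + cr 3 p ^ 2) * U2 p := mul_le_mul h this (by norm_num) (by positivity))
  refine ⟨fun p => ![X1 p, Y1 p, X2 p, Y2 p], fun p hp => ?_⟩
  obtain ⟨a1, b1, c1⟩ := h1 p hp
  obtain ⟨a2, b2, c2⟩ := h2 p hp
  constructor
  · rw [contDiffAt_pi]
    intro i
    fin_cases i
    · exact a1
    · exact b1
    · exact a2
    · exact b2
  · intro v w
    have d1 : HasFDerivAt X1 (fderiv ℝ X1 p) p := (a1.differentiableAt (by simp)).hasFDerivAt
    have d2 : HasFDerivAt Y1 (fderiv ℝ Y1 p) p := (b1.differentiableAt (by simp)).hasFDerivAt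
    have d3 : HasFDerivAt X2 (fderiv ℝ X2 p) p := (a2.differentiableAt (by simp)).hasFDerivAt
    have d4 : HasFDerivAt Y2 (fderiv ℝ Y2 p) p := (b2.differentiableAt (by simp)).hasFDerivAt
    have hd : HasFDerivAt (fun p => ![X1 p, Y1 p, X2 p, Y2 p])
        (ContinuousLinearMap.pi ![fderiv ℝ X1 p, fderiv ℝ Y1 p, fderiv ℝ X2 p, fderiv ℝ Y2 p])
        p := by
      rw [hasFDerivAt_pi']
      intro i
      fin_cases i
      · exact d1
      · exact d2
      · exact d3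
      · exact d4
    rw [hd.fderiv, omega_eq]
    have c1' := c1 v w
    have c2' := c2 v w
    unfold omega0
    simp only [ContinuousLinearMap.coe_pi', Matrix.cons_val_zero, Matrix.cons_val_one,
      Matrix.cons_val]
    linarith

theorem S1_hd (p : R4) : HasFDerivAt S1 ((2 * p 0) • cr 0 + (2 * p 1) • cr 1) p := by
  have h := (((cr 0).hasFDerivAt (x := p)).pow 2).add (((cr 1).hasFDerivAt (x := p)).pow 2)
  refine h.congr_fderiv ?_
  ext v
  simp [cr_apply]

theorem S2_hd (p : R4) : HasFDerivAt S2 ((2 * p 2) • cr 2 + (2 * p 3) • cr 3) p := by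
  have h := (((cr 2).hasFDerivAt (x := p)).pow 2).add (((cr 3).hasFDerivAt (x := p)).pow 2)
  refine h.congr_fderiv ?_
  ext v
  simp [cr_apply]

theorem aa_hd (s : ℝ) : HasDerivAt aa (aa' s) s := by
  have h1 := (Real.hasDerivAt_cos s).const_mul 2
  have h2 := ((hasDerivAt_id s).const_mul 2).mul (Real.hasDerivAt_sin s)
  refine (h1.sub h2).congr_deriv ?_
  unfold aa'
  simp only [id]
  ring

theorem fderiv_U1 (p v : R4) : fderiv ℝ U1 p v =
    (-sin (S1 p) + aa (S2 p)) * (2 * p 0 * v 0 + 2 * p 1 * v 1) +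
      (aa (S2 p) + (S1 p + S2 p - π) * aa' (S2 p)) * (2 * p 2 * v 2 + 2 * p 3 * v 3) := by
  have h1 := (S1_hd p).cos.add ((((S1_hd p).add (S2_hd p)).sub_const π).mul
    ((aa_hd (S2 p)).comp_hasFDerivAt p (S2_hd p)))
  have h2 : fderiv ℝ U1 p = _ := h1.fderiv
  rw [h2]
  simp only [add_apply, smul_apply, smul_eq_mul, cr_apply, Function.comp_apply, Pi.add_apply]
  ring

theorem fderiv_U2 (p v : R4) : fderiv ℝ U2 p v =
    (aa (S1 p) + (S1 p + S2 p - π) * aa' (S1 p)) * (2 * p 0 * v 0 + 2 * p 1 * v 1) +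
      (-sin (S2 p) + aa (S1 p)) * (2 * p 2 * v 2 + 2 * p 3 * v 3) := by
  have h1 := (S2_hd p).cos.add ((((S1_hd p).add (S2_hd p)).sub_const π).mul
    ((aa_hd (S1 p)).comp_hasFDerivAt p (S1_hd p)))
  have h2 : fderiv ℝ U2 p = _ := h1.fderiv
  rw [h2]
  simp only [add_apply, smul_apply, smul_eq_mul, cr_apply, Function.comp_apply, Pi.add_apply]
  ring

/-- The form, explicitly. -/
theorem omega_explicit (p v w : R4) : omega p v w =
    -(((-sin (S1 p) + aa (S2 p)) * (2 * p 0 * v 0 + 2 * p 1 * v 1) +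
      (aa (S2 p) + (S1 p + S2 p - π) * aa' (S2 p)) * (2 * p 2 * v 2 + 2 * p 3 * v 3)) *
        (p 0 * w 1 - p 1 * w 0) -
      ((-sin (S1 p) + aa (S2 p)) * (2 * p 0 * w 0 + 2 * p 1 * w 1) +
      (aa (S2 p) + (S1 p + S2 p - π) * aa' (S2 p)) * (2 * p 2 * w 2 + 2 * p 3 * w 3)) *
        (p 0 * v 1 - p 1 * v 0) + 2 * U1 p * (v 0 * w 1 - w 0 * v 1) +
      (((aa (S1 p) + (S1 p + S2 p - π) * aa' (S1 p)) * (2 * p 0 * v 0 + 2 * p 1 * v 1) +
      (-sin (S2 p) + aa (S1 p)) * (2 * p 2 * v 2 + 2 * p 3 * v 3)) *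
        (p 2 * w 3 - p 3 * w 2) -
      ((aa (S1 p) + (S1 p + S2 p - π) * aa' (S1 p)) * (2 * p 0 * w 0 + 2 * p 1 * w 1) +
      (-sin (S2 p) + aa (S1 p)) * (2 * p 2 * w 2 + 2 * p 3 * w 3)) *
        (p 2 * v 3 - p 3 * v 2) + 2 * U2 p * (v 2 * w 3 - w 2 * v 3))) := by
  rw [omega_eq]
  unfold tform
  rw [fderiv_U1, fderiv_U1, fderiv_U2, fderiv_U2]
  simp only [cr_apply]

theorem degenerate {s t : ℝ} (hs : 0 < s) (ht : 0 < t) (h22 : 0 < k22 s t) (hJ : JJ s t = 0) :
    ∃ p : R4, f p = s + t - π ∧ ¬ NondegenerateAt p := by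
  have es := Real.sq_sqrt hs.le
  have et := Real.sq_sqrt ht.le
  refine ⟨![√s, 0, √t, 0], ?_, fun h => ?_⟩
  · rw [f_eq]
    simp [S1, S2, es, et]
  · have h1 := h ![0, k22 s t * √s, 0, -k12 s t * √t] ?_
    · have h2 := congrFun h1 1
      simp only [Matrix.cons_val_one, Matrix.cons_val_zero, Pi.zero_apply] at h2
      have h3 : 0 < k22 s t * √s := mul_pos h22 (Real.sqrt_pos.2 hs)
      exact h3.ne' h2
    · intro w
      rw [omega_explicit]
      have a1 : S1 ![√s, 0, √t, 0] = s := by simp [S1, es]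
      have a2 : S2 ![√s, 0, √t, 0] = t := by simp [S2, et]
      unfold U1 U2
      rw [a1, a2]
      simp only [Matrix.cons_val_zero, Matrix.cons_val_one, Matrix.cons_val]
      unfold JJ k11 k22 k12 k21 at *
      generalize aa s = A1 at *
      generalize aa t = A2 at *
      generalize aa' s = B1 at *
      generalize aa' t = B2 at *
      generalize √s = x at *
      generalize √t = y at *
      subst es
      subst et
      linear_combination (2 * x * w 0) * hJ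

theorem eps_le {ε : ℝ} (h : ∀ p ∈ Shell ε, NondegenerateAt p) : ε ≤ 1 / 5 := by
  by_contra hn
  push Not at hn
  obtain ⟨g, h0, h1, hJ⟩ := exists_zero
  have hpi := Real.pi_gt_three
  obtain ⟨p, hp, hd⟩ := degenerate (s := 1 / 2) (t := π - 1 / 2 + g) (by norm_num)
    (by linarith) (k22_pos g h0 h1) hJ
  refine hd (h p ?_)
  change |f p| < ε
  rw [hp, show 1 / 2 + (π - 1 / 2 + g) - π = g by ring, abs_of_nonneg h0]
  linarith

theorem pf_lemma {m01 m02 m03 m12 m13 m23 v0 v1 v2 v3 : ℝ}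
    (E0 : -(v1 * m01) - v2 * m02 - v3 * m03 = 0) (E1 : v0 * m01 - v2 * m12 - v3 * m13 = 0)
    (E2 : v0 * m02 + v1 * m12 - v3 * m23 = 0) (E3 : v0 * m03 + v1 * m13 + v2 * m23 = 0)
    (h : m01 * m23 - m02 * m13 + m03 * m12 ≠ 0) : v0 = 0 ∧ v1 = 0 ∧ v2 = 0 ∧ v3 = 0 := by
  refine ⟨(mul_eq_zero.1 ?_).resolve_left h, (mul_eq_zero.1 ?_).resolve_left h,
    (mul_eq_zero.1 ?_).resolve_left h, (mul_eq_zero.1 ?_).resolve_left h⟩
  · linear_combination m23 * E1 - m13 * E2 + m12 * E3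
  · linear_combination -m23 * E0 + m03 * E2 - m02 * E3
  · linear_combination m13 * E0 - m03 * E1 + m01 * E3
  · linear_combination -m12 * E0 + m02 * E1 - m01 * E2

theorem nondegenerate_of {p : R4} (h : JJ (S1 p) (S2 p) ≠ 0) : NondegenerateAt p := by
  intro v hv
  have E0 := hv ![1, 0, 0, 0]
  have E1 := hv ![0, 1, 0, 0]
  have E2 := hv ![0, 0, 1, 0]
  have E3 := hv ![0, 0, 0, 1]
  rw [omega_explicit] at E0 E1 E2 E3
  simp only [Matrix.cons_val_zero, Matrix.cons_val_one, Matrix.cons_val] at E0 E1 E2 E3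
  obtain ⟨a1, ha1⟩ : ∃ x, x = -sin (S1 p) + aa (S2 p) := ⟨_, rfl⟩
  obtain ⟨a2, ha2⟩ : ∃ x, x = aa (S2 p) + (S1 p + S2 p - π) * aa' (S2 p) := ⟨_, rfl⟩
  obtain ⟨b1, hb1⟩ : ∃ x, x = aa (S1 p) + (S1 p + S2 p - π) * aa' (S1 p) := ⟨_, rfl⟩
  obtain ⟨b2, hb2⟩ : ∃ x, x = -sin (S2 p) + aa (S1 p) := ⟨_, rfl⟩
  have hJ : JJ (S1 p) (S2 p) = (U1 p + S1 p * a1) * (U2 p + S2 p * b2) -
      (S1 p * a2) * (S2 p * b1) := by
    rw [ha1, ha2, hb1, hb2]
    rfl
  rw [← ha1, ← ha2, ← hb1, ← hb2] at E0 E1 E2 E3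
  rw [hJ] at h
  have hz := pf_lemma (m01 := -(2 * (U1 p + S1 p * a1))) (m23 := -(2 * (U2 p + S2 p * b2)))
    (m02 := -(2 * a2 * p 1 * p 2 - 2 * b1 * p 0 * p 3))
    (m03 := -(2 * a2 * p 1 * p 3 + 2 * b1 * p 0 * p 2))
    (m12 := 2 * a2 * p 0 * p 2 + 2 * b1 * p 1 * p 3)
    (m13 := 2 * a2 * p 0 * p 3 - 2 * b1 * p 1 * p 2)
    (v0 := v 0) (v1 := v 1) (v2 := v 2) (v3 := v 3) ?_ ?_ ?_ ?_ ?_
  · funext i
    fin_cases i
    · exact hz.1
    · exact hz.2.1
    · exact hz.2.2.1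
    · exact hz.2.2.2
  · unfold S1 S2 at *
    linear_combination E0
  · unfold S1 S2 at *
    linear_combination E1
  · unfold S1 S2 at *
    linear_combination E2
  · unfold S1 S2 at *
    linear_combination E3
  · intro h0
    apply h
    unfold S1 S2 at *
    linear_combination (1 / 4) * h0

/-- There is a shell on which the form is nondegenerate. -/
theorem exists_eps : ∃ ε : ℝ, 0 < ε ∧ ∀ p ∈ Shell ε, NondegenerateAt p := by
  have hfc : Continuous f := by
    have : f = fun p => S1 p + S2 p - π := funext f_eq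
    rw [this]
    unfold S1 S2
    fun_prop
  have hJc : Continuous fun p : R4 => JJ (S1 p) (S2 p) := by
    unfold JJ k11 k12 k21 k22 aa aa' S1 S2
    fun_prop
  obtain ⟨K, hK⟩ : ∃ K : Set R4, K = {p | |f p| ≤ 1 ∧ JJ (S1 p) (S2 p) = 0} := ⟨_, rfl⟩
  have hKc : IsCompact K := by
    apply Metric.isCompact_of_isClosed_isBounded
    · rw [hK]
      exact (isClosed_le hfc.abs continuous_const).inter (isClosed_eq hJc continuous_const)
    · rw [isBounded_iff_forall_norm_le]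
      refine ⟨3, fun p hp => ?_⟩
      rw [hK] at hp
      have h1 := (abs_le.1 hp.1).2
      rw [f_eq] at h1
      have h2 := Real.pi_lt_d2
      unfold S1 S2 at h1
      have h9 : p 0 ^ 2 + p 1 ^ 2 + (p 2 ^ 2 + p 3 ^ 2) ≤ 9 := by linarith
      rw [pi_norm_le_iff_of_nonneg (by norm_num)]
      intro i
      rw [Real.norm_eq_abs]
      apply abs_le_of_sq_le_sq' _ (by norm_num) |> abs_le.2
      fin_cases i
      · simp only [Fin.zero_eta]
        nlinarith [sq_nonneg (p 1), sq_nonneg (p 2), sq_nonneg (p 3)]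
      · simp only [Fin.mk_one]
        nlinarith [sq_nonneg (p 0), sq_nonneg (p 2), sq_nonneg (p 3)]
      · simp only [Fin.reduceFinMk]
        nlinarith [sq_nonneg (p 1), sq_nonneg (p 0), sq_nonneg (p 3)]
      · simp only [Fin.reduceFinMk]
        nlinarith [sq_nonneg (p 1), sq_nonneg (p 2), sq_nonneg (p 0)]
  rcases K.eq_empty_or_nonempty with he | hne
  · refine ⟨1, one_pos, fun p hp => nondegenerate_of fun h0 => ?_⟩
    have : p ∈ K := by
      rw [hK]
      exact ⟨le_of_lt hp, h0⟩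
    rw [he] at this
    exact this
  · obtain ⟨q, hq, hmin⟩ := hKc.exists_isMinOn hne hfc.abs.continuousOn
    have hq0 : 0 < |f q| := by
      rw [abs_pos]
      intro h0
      rw [hK] at hq
      rw [f_eq] at h0
      have := JJ_pos (by linarith : S1 q + S2 q = π) (S1_nonneg q) (S2_nonneg q)
      exact this.ne' hq.2
    refine ⟨|f q|, hq0, fun p hp => nondegenerate_of fun h0 => ?_⟩
    have hq1 : |f q| ≤ 1 := by
      rw [hK] at hq
      exact hq.1
    have hp' : |f p| < |f q| := hp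
    have hpK : p ∈ K := by
      rw [hK]
      exact ⟨by linarith, h0⟩
    have := hmin hpK
    simp only [Set.mem_ofPred_eq] at this
    linarith

/-- On every shell on which the form is nondegenerate, it is the pull-back of the standard form
by a smooth immersion. -/
theorem main {ε : ℝ} (h : ∀ p ∈ Shell ε, NondegenerateAt p) : ∃ ψ : R4 → R4,
    ContDiffOn ℝ ∞ ψ (Shell ε) ∧ ∀ p ∈ Shell ε, Function.Injective (fderiv ℝ ψ p) ∧
      ∀ v w, omega0 (fderiv ℝ ψ p v) (fderiv ℝ ψ p w) = omega p v w := by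
  obtain ⟨ψ, hψ⟩ := main_small (eps_le h)
  refine ⟨ψ, fun p hp => (hψ p hp).1.contDiffWithinAt, fun p hp => ⟨?_, (hψ p hp).2⟩⟩
  rw [injective_iff_map_eq_zero]
  intro v hv
  refine h p hp v fun w => ?_
  rw [← (hψ p hp).2, hv]
  simp [omega0]

end Pool.Agent.Q39.BP
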