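import Mathlib

set_option autoImplicit false

/-!
# Two profile functions
-/

namespace Pool.Agent.Q39.BP

open Real
open scoped ContDiff

/-- The smooth step. -/
noncomputable def st (t : ℝ) : ℝ := Real.smoothTransition t

theorem st_smooth : ContDiff ℝ ∞ st := Real.smoothTransition.contDiff

theorem st_diff : Differentiable ℝ st := st_smooth.differentiable (by simp)

theorem st_hd (t : ℝ) : HasDerivAt st (deriv st t) t := (st_diff t).hasDerivAt

theorem st_deriv_nonneg (t : ℝ) : 0 ≤ deriv st t :=
  Real.smoothTransition.monotone.deriv_nonneg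

theorem st_nonneg (t : ℝ) : 0 ≤ st t := Real.smoothTransition.nonneg t

theorem st_le_one (t : ℝ) : st t ≤ 1 := Real.smoothTransition.le_one t

theorem st_one {t : ℝ} (h : 1 ≤ t) : st t = 1 := Real.smoothTransition.one_of_one_le h

theorem st_zero {t : ℝ} (h : t ≤ 0) : st t = 0 := Real.smoothTransition.zero_of_nonpos h

theorem st_deriv_one {t : ℝ} (h : 1 ≤ t) : deriv st t = 0 := by
  have h1 : IsLocalMax st t := Filter.Eventually.of_forall fun y => by
    rw [st_one h]; exact st_le_one y
  exact h1.deriv_eq_zero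

theorem st_deriv_zero {t : ℝ} (h : t ≤ 0) : deriv st t = 0 := by
  have h1 : IsLocalMin st t := Filter.Eventually.of_forall fun y => by
    rw [st_zero h]; exact st_nonneg y
  exact h1.deriv_eq_zero

/-- First profile. -/
noncomputable def pA (t : ℝ) : ℝ := st t * (t + 2) + (1 - st t) * (1 + exp (2 * t) / 10)

/-- Second profile. -/
noncomputable def pw (t : ℝ) : ℝ := st (t + 1) * (t + 2) + (1 - st (t + 1)) * exp t

/-- Derivative of the first profile. -/
noncomputable def pA' (t : ℝ) : ℝ :=
  deriv st t * (t + 1 - exp (2 * t) / 10) + st t + (1 - st t) * (exp (2 * t) / 5)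

/-- Derivative of the second profile. -/
noncomputable def pw' (t : ℝ) : ℝ :=
  deriv st (t + 1) * (t + 2 - exp t) + st (t + 1) + (1 - st (t + 1)) * exp t

theorem pA_smooth : ContDiff ℝ ∞ pA := by
  have h := st_smooth
  unfold pA
  fun_prop

theorem pw_smooth : ContDiff ℝ ∞ pw := by
  have h := st_smooth
  unfold pw
  fun_prop

theorem st'_smooth : ContDiff ℝ ∞ (deriv st) := (contDiff_infty_iff_deriv.1 st_smooth).2

theorem pA'_smooth : ContDiff ℝ ∞ pA' := by
  have h := st_smooth
  have h2 := st'_smooth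
  unfold pA'
  fun_prop

theorem pw'_smooth : ContDiff ℝ ∞ pw' := by
  have h := st_smooth
  have h2 := st'_smooth
  unfold pw'
  fun_prop

theorem pA_hd (t : ℝ) : HasDerivAt pA (pA' t) t := by
  have h1 := st_hd t
  have h2 : HasDerivAt (fun t : ℝ => exp (2 * t)) (exp (2 * t) * 2) t := by
    simpa using ((hasDerivAt_id t).const_mul (2 : ℝ)).exp
  have h3 := (h1.mul ((hasDerivAt_id t).add_const (2 : ℝ))).add
    ((h1.const_sub 1).mul ((h2.div_const 10).const_add 1))
  refine h3.congr_deriv ?_
  simp only [pA', id]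
  ring

theorem pw_hd (t : ℝ) : HasDerivAt pw (pw' t) t := by
  have h1 : HasDerivAt (fun t => st (t + 1)) (deriv st (t + 1)) t := by
    simpa using (st_hd (t + 1)).comp_add_const t 1
  have h2 := Real.hasDerivAt_exp t
  have h3 := (h1.mul ((hasDerivAt_id t).add_const (2 : ℝ))).add ((h1.const_sub 1).mul h2)
  refine h3.congr_deriv ?_
  simp only [pw', id]
  ring

theorem exp_two_le : exp 2 ≤ 7.5 := by
  have h := Real.exp_one_lt_d9
  have h2 : exp 2 = exp 1 * exp 1 := by rw [← Real.exp_add]; norm_num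
  have h3 := Real.exp_pos 1
  rw [h2]
  nlinarith

theorem pA_pos (t : ℝ) : 0 < pA t := by
  unfold pA
  have h0 := st_nonneg t
  have h1 := st_le_one t
  have h2 := Real.exp_pos (2 * t)
  rcases le_or_gt t 0 with h | h
  · rw [st_zero h]
    linarith
  · nlinarith

theorem pA'_pos (t : ℝ) : 0 < pA' t := by
  unfold pA'
  have h0 := st_nonneg t
  have h1 := st_le_one t
  have h2 := Real.exp_pos (2 * t)
  have h3 := st_deriv_nonneg t
  rcases le_or_gt t 0 with h | h
  · rw [st_zero h, st_deriv_zero h]
    linarith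
  · rcases le_or_gt 1 t with h' | h'
    · rw [st_one h', st_deriv_one h']
      norm_num
    · have h4 : exp (2 * t) ≤ 7.5 := le_trans (Real.exp_le_exp.2 (by linarith)) exp_two_le
      have h5 : 0 ≤ deriv st t * (t + 1 - exp (2 * t) / 10) := mul_nonneg h3 (by linarith)
      have h6 : 0 < st t := Real.smoothTransition.pos_of_pos h
      have h7 : 0 ≤ (1 - st t) * (exp (2 * t) / 5) := mul_nonneg (by linarith) (by linarith)
      linarith

theorem pw_pos (t : ℝ) : 0 < pw t := by
  unfold pw
  have h0 := st_nonneg (t + 1)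
  have h1 := st_le_one (t + 1)
  have h2 := Real.exp_pos t
  rcases le_or_gt t (-1) with h | h
  · rw [st_zero (by linarith)]
    linarith
  · rcases h1.lt_or_eq with h4 | h4
    · have h5 := mul_pos (sub_pos.2 h4) h2
      have h6 := mul_nonneg h0 (by linarith : (0:ℝ) ≤ t + 2)
      linarith
    · rw [h4]
      linarith

theorem pw'_pos (t : ℝ) : 0 < pw' t := by
  unfold pw'
  have h0 := st_nonneg (t + 1)
  have h1 := st_le_one (t + 1)
  have h2 := Real.exp_pos t
  have h3 := st_deriv_nonneg (t + 1)
  rcases le_or_gt t (-1) with h | h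
  · rw [st_zero (by linarith), st_deriv_zero (by linarith)]
    linarith
  · rcases le_or_gt 0 t with h' | h'
    · rw [st_one (by linarith), st_deriv_one (by linarith)]
      norm_num
    · have h4 : exp t ≤ 1 := Real.exp_le_one_iff.2 (by linarith)
      have h5 : 0 ≤ deriv st (t + 1) * (t + 2 - exp t) := mul_nonneg h3 (by linarith)
      have h6 : 0 < st (t + 1) := Real.smoothTransition.pos_of_pos (by linarith)
      have h7 : 0 ≤ (1 - st (t + 1)) * exp t := mul_nonneg (by linarith) (by linarith)
      linarith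

/-- For `-1 ≤ t` the second profile is at most `t + 2`. -/
theorem pw_le {t : ℝ} (ht : -1 ≤ t) : pw t ≤ t + 2 := by
  unfold pw
  have h0 := st_nonneg (t + 1)
  have h1 := st_le_one (t + 1)
  rcases le_or_gt 0 t with h' | h'
  · rw [st_one (by linarith)]
    linarith
  · have h4 : exp t ≤ 1 := Real.exp_le_one_iff.2 (by linarith)
    nlinarith

theorem pw_low {t : ℝ} (ht : t ≤ -1) : pw t = exp t ∧ pw' t = exp t := by
  unfold pw pw'
  rw [st_zero (by linarith), st_deriv_zero (by linarith)]
  constructor <;> ring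

theorem pA_low {t : ℝ} (ht : t ≤ 0) : pA t = 1 + exp (2 * t) / 10 ∧ pA' t = exp (2 * t) / 5 := by
  unfold pA pA'
  rw [st_zero ht, st_deriv_zero ht]
  constructor <;> ring

theorem pw_high {t : ℝ} (ht : 1 ≤ t) : pw t = t + 2 ∧ pw' t = 1 := by
  unfold pw pw'
  rw [st_one (by linarith), st_deriv_one (by linarith)]
  constructor <;> ring

theorem pA_high {t : ℝ} (ht : 1 ≤ t) : pA t = t + 2 ∧ pA' t = 1 := by
  unfold pA pA'
  rw [st_one ht, st_deriv_one ht]
  constructor <;> ring

/-- `-t exp t ≤ 1`. -/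
theorem neg_mul_exp_le (t : ℝ) : -t * exp t ≤ 1 := by
  have h1 := Real.add_one_le_exp (-t)
  have h2 : exp (-t) * exp t = 1 := by rw [← Real.exp_add]; simp
  have h3 := Real.exp_pos t
  nlinarith

theorem key_ineq (t : ℝ) : 3 * pA' t * (pw t - (t + 2)) ≤ pA t * pw' t := by
  have h1 := pA_pos t
  have h2 := pA'_pos t
  have h3 := pw'_pos t
  rcases le_or_gt (-1) t with h | h
  · have h4 := pw_le h
    have h5 : 3 * pA' t * (pw t - (t + 2)) ≤ 0 := by nlinarith
    have h6 : 0 < pA t * pw' t := mul_pos h1 h3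
    linarith
  · obtain ⟨a1, a2⟩ := pw_low h.le
    obtain ⟨a3, a4⟩ := pA_low (by linarith : t ≤ 0)
    rw [a1, a2, a3, a4]
    have e1 : exp (2 * t) = exp t * exp t := by rw [← Real.exp_add]; ring_nf
    have e2 := Real.exp_pos t
    have e3 : exp t ≤ 1 := Real.exp_le_one_iff.2 (by linarith)
    have e4 := neg_mul_exp_le t
    rw [e1]
    have e5 : exp t * (exp t - (t + 2)) ≤ 1 := by nlinarith
    have e6 : exp t * (exp t * (exp t - (t + 2))) ≤ exp t * 1 :=
      mul_le_mul_of_nonneg_left e5 e2.le
    nlinarith [mul_pos e2 (mul_pos e2 e2)]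

/-- The new radial coordinate. -/
noncomputable def pP (t : ℝ) : ℝ := pA t * (3 * (t + 2) + pw t) / 8

/-- Its derivative. -/
noncomputable def pP' (t : ℝ) : ℝ := (pA' t * (3 * (t + 2) + pw t) + pA t * (3 + pw' t)) / 8

theorem pP_smooth : ContDiff ℝ ∞ pP := by
  have h1 := pA_smooth
  have h2 := pw_smooth
  unfold pP
  fun_prop

theorem pP'_smooth : ContDiff ℝ ∞ pP' := by
  have h1 := pA_smooth
  have h2 := pw_smooth
  have h3 := pA'_smooth
  have h4 := pw'_smooth
  unfold pP'
  fun_prop

theorem pP_hd (t : ℝ) : HasDerivAt pP (pP' t) t := by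
  have h := ((pA_hd t).mul ((((hasDerivAt_id t).add_const (2 : ℝ)).const_mul (3 : ℝ)).add
    (pw_hd t))).div_const (8 : ℝ)
  refine h.congr_deriv ?_
  simp only [pP', id, Pi.add_apply]
  ring

theorem pP'_ge (t : ℝ) : (1 : ℝ) / 5 ≤ pP' t := by
  unfold pP'
  have h1 := pA_pos t
  have h2 := pA'_pos t
  have h3 := pw'_pos t
  have h4 := pw_pos t
  have hA : 1 ≤ pA t := by
    unfold pA
    have h0 := st_nonneg t
    have h1 := st_le_one t
    have h2 := Real.exp_pos (2 * t)
    rcases le_or_gt t 0 with h | h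
    · rw [st_zero h]
      linarith
    · nlinarith
  rcases le_or_gt (-1) t with h | h
  · nlinarith [mul_pos h2 (by linarith : 0 < 3 * (t + 2) + pw t), mul_pos h1 h3]
  · obtain ⟨a1, a2⟩ := pw_low h.le
    obtain ⟨a3, a4⟩ := pA_low (by linarith : t ≤ 0)
    have e1 : exp (2 * t) = exp t * exp t := by rw [← Real.exp_add]; ring_nf
    have e2 := Real.exp_pos t
    have e3 : exp t ≤ 1 := Real.exp_le_one_iff.2 (by linarith)
    have e4 := neg_mul_exp_le t
    have e6 : -1 ≤ exp t * (exp t * t) := by nlinarith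
    rw [a4, a1, e1]
    nlinarith [mul_pos h1 h3, mul_pos e2 e2, mul_pos e2 (mul_pos e2 e2)]

theorem pP'_pos (t : ℝ) : 0 < pP' t := lt_of_lt_of_le (by norm_num) (pP'_ge t)

theorem pP_strictMono : StrictMono pP :=
  strictMono_of_deriv_pos fun t => by rw [(pP_hd t).deriv]; exact pP'_pos t

theorem pP_surj : Function.Surjective pP := by
  have hc : Continuous pP := pP_smooth.continuous
  -- `pP t - t / 5` is monotone
  have hm : Monotone fun t => pP t - t / 5 := by
    have hd : ∀ t, HasDerivAt (fun t => pP t - t / 5) (pP' t - 1 / 5) t := fun t =>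
      (pP_hd t).sub ((hasDerivAt_id t).div_const 5)
    refine monotone_of_deriv_nonneg (fun t => (hd t).differentiableAt) fun t => ?_
    rw [(hd t).deriv]
    linarith [pP'_ge t]
  refine hc.surjective ?_ ?_
  · refine Filter.tendsto_atTop_mono' _ ?_
      ((Filter.tendsto_id.atTop_div_const (by norm_num : (0 : ℝ) < 5)).atTop_add
        (tendsto_const_nhds (x := pP 0)))
    filter_upwards [Filter.eventually_ge_atTop 0] with t ht
    have := hm ht
    simp only [id] at *
    linarith
  · refine Filter.tendsto_atBot_mono' _ ?_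
      ((Filter.tendsto_id.atBot_div_const (by norm_num : (0 : ℝ) < 5)).atBot_add
        (tendsto_const_nhds (x := pP 0)))
    filter_upwards [Filter.eventually_le_atBot 0] with t ht
    have := hm ht
    simp only [id] at *
    linarith

theorem pP_high {t : ℝ} (ht : 1 ≤ t) : pP t = (t + 2) ^ 2 / 2 := by
  unfold pP
  rw [(pA_high ht).1, (pw_high ht).1]
  ring

end Pool.Agent.Q39.BP
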